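import Mathlib

set_option linter.all false

/-!
# MP_47cd0b (room C): fine classes of a balanced preorder

`le x y` = `x` reaches `y`. `cls = 2 a` on the points of class `a` whose ancestors all have load `a`,
`cls = 2 a + 1` on the other points of class `a`. `rk` refines `cls`; on an even class two points of
equal rank with `le x y` also have `le y x`.
-/

namespace Pool.Agent.Rank85

open Finset

variable {X : Type*} [Fintype X]

theorem exists_rank2 (ld : X → ℕ) (le : X → X → Prop) (hr : ∀ x, le x x)
    (ht : ∀ x y z, le x y → le y z → le x z) (hl : ∀ x y, le x y → ld x ≤ ld y + 1)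
    (P : X → Prop) (hP : ∀ x, P x → 1 ≤ ld x) (hPl : ∀ x y, le x y → (P x ↔ P y)) :
    ∃ rk cls : X → ℕ,
      (∀ x y, le x y → rk x ≤ rk y) ∧
      (∀ x y, rk x ≤ rk y → cls x ≤ cls y) ∧
      (∀ x, cls x ≤ 2 * ld x + 1 ∧ 2 * ld x ≤ cls x + 1) ∧
      (∀ x y, le x y → rk x = rk y → Even (cls x) → le y x) ∧
      (∀ x, P x → 2 ≤ cls x) ∧
      (∀ x, P x → (cls x = 2 ↔ ∀ w, le w x → ld w = 1)) ∧
      (∀ x y, cls x = cls y → ¬ Even (cls x) → rk x = rk y) := by
  classical
  -- the class and the top
  let up : X → Finset X := fun x => univ.filter fun y => le x y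
  let dn : X → Finset X := fun x => univ.filter fun w => le w x
  have hup : ∀ x, (up x).Nonempty := fun x => ⟨x, by simp [up, hr]⟩
  let cl : X → ℕ := fun x => (up x).inf' (hup x) ld
  let tp : X → ℕ := fun x => (dn x).sup ld
  have hcl1 : ∀ x y, le x y → cl x ≤ ld y := fun x y h =>
    Finset.inf'_le (f := ld) (by simpa [up] using h)
  have hcl2 : ∀ x, ∃ y, le x y ∧ ld y = cl x := by
    intro x
    obtain ⟨y, hy, e⟩ := Finset.exists_mem_eq_inf' (hup x) ld
    exact ⟨y, by simpa [up] using hy, e.symm⟩
  have htp1 : ∀ w x, le w x → ld w ≤ tp x := fun w x h =>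
    Finset.le_sup (f := ld) (by simpa [dn] using h)
  have htp2 : ∀ x n, (∀ w, le w x → ld w ≤ n) → tp x ≤ n := fun x n h =>
    Finset.sup_le fun w hw => h w (by simpa [dn] using hw)
  have hclm : ∀ x y, le x y → cl x ≤ cl y := by
    intro x y h
    obtain ⟨z, hz, e⟩ := hcl2 y
    rw [← e]
    exact hcl1 x z (ht _ _ _ h hz)
  have htpm : ∀ x y, le x y → tp x ≤ tp y := fun x y h =>
    htp2 x _ fun w hw => htp1 w y (ht _ _ _ hw h)
  have htc : ∀ x, tp x ≤ cl x + 1 := by
    intro x
    obtain ⟨y, hy, e⟩ := hcl2 x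
    rw [← e]
    exact htp2 x _ fun w hw => hl w y (ht _ _ _ hw hy)
  have hcl0 : ∀ x, cl x ≤ ld x := fun x => hcl1 x x (hr x)
  have htp0 : ∀ x, ld x ≤ tp x := fun x => htp1 x x (hr x)
  set N := Fintype.card X + 1 with hN
  have hdnc : ∀ x, (dn x).card < N := fun x => Nat.lt_succ_of_le (Finset.card_le_univ _)
  have hdnm : ∀ x y, le x y → dn x ⊆ dn y := by
    intro x y h w hw
    simp only [dn, mem_filter, mem_univ, true_and] at hw ⊢
    exact ht _ _ _ hw h
  let rem : X → ℕ := fun x => if cl x = tp x then (dn x).card else 0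
  have hrem : ∀ x, rem x < N := by
    intro x
    show (if cl x = tp x then (dn x).card else 0) < N
    split_ifs
    · exact hdnc x
    · omega
  refine ⟨fun x => (cl x + tp x) * N + rem x, fun x => cl x + tp x, ?_, ?_, ?_, ?_, ?_, ?_, ?_⟩
  · intro x y h
    have h1 := hclm x y h
    have h2 := htpm x y h
    have h3 := hrem x
    show (cl x + tp x) * N + rem x ≤ (cl y + tp y) * N + rem y
    rcases Nat.lt_or_ge (cl x + tp x) (cl y + tp y) with h4 | h4
    · have h5 : (cl x + tp x + 1) * N ≤ (cl y + tp y) * N := Nat.mul_le_mul_right _ h4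
      have h6 : (cl x + tp x + 1) * N = (cl x + tp x) * N + N := by ring
      omega
    · have e1 : cl x = cl y := by omega
      have e2 : tp x = tp y := by omega
      have h7 : rem x ≤ rem y := by
        show (if cl x = tp x then (dn x).card else 0) ≤ (if cl y = tp y then (dn y).card else 0)
        rw [e1, e2]
        split_ifs
        · exact Finset.card_le_card (hdnm x y h)
        · exact le_rfl
      rw [e1, e2]
      omega
  · intro x y h
    change (cl x + tp x) * N + rem x ≤ (cl y + tp y) * N + rem y at h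
    show cl x + tp x ≤ cl y + tp y
    by_contra hcon
    have h4 : cl y + tp y + 1 ≤ cl x + tp x := by omega
    have h5 : (cl y + tp y + 1) * N ≤ (cl x + tp x) * N := Nat.mul_le_mul_right _ h4
    have h6 : (cl y + tp y + 1) * N = (cl y + tp y) * N + N := by ring
    have h7 := hrem y
    omega
  · intro x
    have h1 := hcl0 x
    have h2 := htp0 x
    have h3 := htc x
    show cl x + tp x ≤ 2 * ld x + 1 ∧ 2 * ld x ≤ cl x + tp x + 1
    omega
  · intro x y h he hev
    change (cl x + tp x) * N + rem x = (cl y + tp y) * N + rem y at he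
    change Even (cl x + tp x) at hev
    have h1 := hclm x y h
    have h2 := htpm x y h
    have h3 := hrem x
    have h3' := hrem y
    have hs : cl x + tp x = cl y + tp y := by
      rcases Nat.lt_or_ge (cl x + tp x) (cl y + tp y) with h4 | h4
      · have h5 : (cl x + tp x + 1) * N ≤ (cl y + tp y) * N := Nat.mul_le_mul_right _ h4
        have h6 : (cl x + tp x + 1) * N = (cl x + tp x) * N + N := by ring
        omega
      · omega
    have e1 : cl x = cl y := by omega
    have e2 : tp x = tp y := by omega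
    have hx : cl x = tp x := by
      have h5 := hcl0 x
      have h6 := htp0 x
      have h7 := htc x
      obtain ⟨m, hm⟩ := hev
      omega
    have h8 : rem x = rem y := by rw [hs] at he; omega
    have h9 : (dn x).card = (dn y).card := by
      have r1 : rem x = (dn x).card := if_pos hx
      have r2 : rem y = (dn y).card := if_pos (by rw [← e1, ← e2]; exact hx)
      rw [← r1, ← r2, h8]
    have h10 := Finset.eq_of_subset_of_card_le (hdnm x y h) h9.symm.le
    have h11 : y ∈ dn y := by simp [dn, hr]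
    rw [← h10] at h11
    simpa [dn] using h11
  · intro x hx
    show 2 ≤ cl x + tp x
    obtain ⟨y, hy, e⟩ := hcl2 x
    have h1 := hP y ((hPl x y hy).1 hx)
    have h2 := htp0 x
    have h3 := hP x hx
    omega
  · intro x hx
    show cl x + tp x = 2 ↔ _
    obtain ⟨y, hy, e⟩ := hcl2 x
    have h1 := hP y ((hPl x y hy).1 hx)
    have h2 := htp0 x
    have h3 := hP x hx
    constructor
    · intro h w hw
      have h4 := htp1 w x hw
      have h5 := hP w ((hPl w x hw).2 hx)
      omega
    · intro h
      have h4 : tp x ≤ 1 := htp2 x 1 fun w hw => (h w hw).le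
      have h5 := hcl0 x
      have h6 := h x (hr x)
      omega
  · intro x y he hod
    change cl x + tp x = cl y + tp y at he
    change ¬ Even (cl x + tp x) at hod
    show (cl x + tp x) * N + rem x = (cl y + tp y) * N + rem y
    have hx : cl x ≠ tp x := fun e => hod ⟨tp x, by rw [e]⟩
    have hy : cl y ≠ tp y := fun e => hod ⟨tp y, by rw [he, e]⟩
    have r1 : rem x = 0 := if_neg hx
    have r2 : rem y = 0 := if_neg hy
    rw [r1, r2, he]

theorem exists_rank (ld : X → ℕ) (le : X → X → Prop) (hr : ∀ x, le x x)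
    (ht : ∀ x y z, le x y → le y z → le x z) (hl : ∀ x y, le x y → ld x ≤ ld y + 1)
    (P : X → Prop) (hP : ∀ x, P x → 1 ≤ ld x) (hPl : ∀ x y, le x y → (P x ↔ P y)) :
    ∃ rk cls : X → ℕ,
      (∀ x y, le x y → rk x ≤ rk y) ∧
      (∀ x y, rk x ≤ rk y → cls x ≤ cls y) ∧
      (∀ x, cls x ≤ 2 * ld x + 1 ∧ 2 * ld x ≤ cls x + 1) ∧
      (∀ x y, le x y → rk x = rk y → Even (cls x) → le y x) ∧
      (∀ x, P x → 2 ≤ cls x) ∧
      (∀ x, P x → (cls x = 2 ↔ ∀ w, le w x → ld w = 1)) := by
  obtain ⟨rk, cls, h1, h2, h3, h4, h5, h6, -⟩ := exists_rank2 ld le hr ht hl P hP hPl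
  exact ⟨rk, cls, h1, h2, h3, h4, h5, h6⟩

end Pool.Agent.Rank85
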