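import Pool.Agent.Helper85.Alloc85c
import Pool.Agent.Helper85.Rank85

set_option linter.all false

/-!
# MP_47cd0b (room C): allocation with the fine rank
-/

namespace Pool.Agent.Alloc85

open Relation Finset

variable {X K Q W : Type*} [Fintype X] [DecidableEq X] [Fintype K] [DecidableEq K]
  [DecidableEq Q] [DecidableEq W]

/-- **Allocation, rank version.** `cls = 2 a` : class `a`, all ancestors have load `a`;
`cls = 2 a + 1` : the other points of class `a`. `rk` refines `cls`. -/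
theorem alloc85k2 (mem : K → Finset X) (adj : K → Finset Q) (sw : K → Q → W) (harm : W → Prop)
    (hsw : ∀ k q k' q', sw k q = sw k' q' → q = q')
    (Rep0 : Finset X) (h0 : ∃ s, Feas mem adj Rep0 s) :
    ∃ (Rep : Finset X) (E : Finset W) (s : St X K Q) (rk cls : X → ℕ),
      Rep ⊆ Rep0 ∧
      (∀ k ∈ s.B, (∀ z ∈ mem k, z ∉ Rep) ∧ s.own k ∈ mem k ∧ s.pl k ∈ adj k ∧
        (harm (sw k (s.pl k)) → sw k (s.pl k) ∈ E)) ∧
      (∀ k ∈ s.B, ∀ k' ∈ s.B, s.pl k = s.pl k' → k = k') ∧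
      (∀ x y, rk x ≤ rk y → cls x ≤ cls y) ∧
      (∀ z, z ∉ Rep → 1 ≤ ld s z ∧ 2 ≤ cls z) ∧
      (∀ z, cls z ≤ 2 * ld s z + 1 ∧ 2 * ld s z ≤ cls z + 1) ∧
      (∀ k ∈ s.B, ∀ z ∈ mem k, rk (s.own k) ≤ rk z) ∧
      (∀ k0, k0 ∉ s.B → (∀ z ∈ mem k0, z ∉ Rep) → (mem k0).Nonempty → ∀ q ∈ adj k0,
        (harm (sw k0 q) → sw k0 q ∈ E) →
        ∃ k ∈ s.B, s.pl k = q ∧ ∀ z ∈ mem k0, rk (s.own k) ≤ rk z ∧
          (harm (sw k q) → sw k0 q ≠ sw k q → rk (s.own k) < rk z)) ∧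
      (∀ r ∈ Rep, ∀ k0, r ∈ mem k0 → (∀ z ∈ mem k0, z ∈ Rep → z = r) → ∀ q ∈ adj k0,
        (harm (sw k0 q) → sw k0 q ∈ E) → ∃ k ∈ s.B, s.pl k = q ∧ cls (s.own k) = 2) ∧
      (∀ k ∈ s.B, harm (sw k (s.pl k)) → cls (s.own k) = 2) ∧
      (∀ x y, cls x = cls y → ¬ Even (cls x) → rk x = rk y) := by
  obtain ⟨Rep, E, s, le, h1, h2, h3, h4, h5, h6, h7, h8, h9, h10, h11, h12, h13⟩ :=
    alloc85r mem adj sw harm hsw Rep0 h0
  obtain ⟨rk, cls, g1, g2, g3, g4, g5, g6, g7⟩ := Rank85.exists_rank2 (ld s) le h2 h3 h5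
    (fun z => z ∉ Rep) h4 h6
  have hown : ∀ k ∈ s.B, s.own k ∉ Rep := fun k hk => (h7 k hk).1 _ (h7 k hk).2.1
  have hharm : ∀ k ∈ s.B, harm (sw k (s.pl k)) → cls (s.own k) = 2 := fun k hk hh =>
    (g6 _ (hown k hk)).2 (h12 k hk hh)
  refine ⟨Rep, E, s, rk, cls, h1, h7, h8, g2, fun z hz => ⟨h4 z hz, g5 z hz⟩, g3,
    fun k hk z hz => g1 _ _ (h9 k hk z hz), ?_, ?_, hharm, g7⟩
  · intro k0 hk0 hav hne q hq hqE
    obtain ⟨k, hk, e, hh⟩ := h10 k0 hk0 hav hne q hq hqE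
    refine ⟨k, hk, e, fun z hz => ⟨g1 _ _ (hh z hz), fun hhm hne' => ?_⟩⟩
    subst e
    rcases Nat.lt_or_ge (rk (s.own k)) (rk z) with h | h
    · exact h
    · exfalso
      have he : rk (s.own k) = rk z := le_antisymm (g1 _ _ (hh z hz)) h
      exact h13 k hk hhm k0 hk0 hav hq hqE hne' z hz
        (g4 _ _ (hh z hz) he (by rw [hharm k hk hhm]; exact ⟨1, rfl⟩))
  · intro r hr k0 hrk hu q hq hqE
    obtain ⟨k, hk, e, hh⟩ := h11 r hr k0 hrk hu q hq hqE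
    exact ⟨k, hk, e, (g6 _ (hown k hk)).2 hh⟩

/-- **Allocation, rank version.** `cls = 2 a` : class `a`, all ancestors have load `a`;
`cls = 2 a + 1` : the other points of class `a`. `rk` refines `cls`. -/
theorem alloc85k (mem : K → Finset X) (adj : K → Finset Q) (sw : K → Q → W) (harm : W → Prop)
    (hsw : ∀ k q k' q', sw k q = sw k' q' → q = q')
    (Rep0 : Finset X) (h0 : ∃ s, Feas mem adj Rep0 s) :
    ∃ (Rep : Finset X) (E : Finset W) (s : St X K Q) (rk cls : X → ℕ),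
      Rep ⊆ Rep0 ∧
      (∀ k ∈ s.B, (∀ z ∈ mem k, z ∉ Rep) ∧ s.own k ∈ mem k ∧ s.pl k ∈ adj k ∧
        (harm (sw k (s.pl k)) → sw k (s.pl k) ∈ E)) ∧
      (∀ k ∈ s.B, ∀ k' ∈ s.B, s.pl k = s.pl k' → k = k') ∧
      (∀ x y, rk x ≤ rk y → cls x ≤ cls y) ∧
      (∀ z, z ∉ Rep → 1 ≤ ld s z ∧ 2 ≤ cls z) ∧
      (∀ z, cls z ≤ 2 * ld s z + 1 ∧ 2 * ld s z ≤ cls z + 1) ∧
      (∀ k ∈ s.B, ∀ z ∈ mem k, rk (s.own k) ≤ rk z) ∧
      (∀ k0, k0 ∉ s.B → (∀ z ∈ mem k0, z ∉ Rep) → (mem k0).Nonempty → ∀ q ∈ adj k0,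
        (harm (sw k0 q) → sw k0 q ∈ E) →
        ∃ k ∈ s.B, s.pl k = q ∧ ∀ z ∈ mem k0, rk (s.own k) ≤ rk z ∧
          (harm (sw k q) → sw k0 q ≠ sw k q → rk (s.own k) < rk z)) ∧
      (∀ r ∈ Rep, ∀ k0, r ∈ mem k0 → (∀ z ∈ mem k0, z ∈ Rep → z = r) → ∀ q ∈ adj k0,
        (harm (sw k0 q) → sw k0 q ∈ E) → ∃ k ∈ s.B, s.pl k = q ∧ cls (s.own k) = 2) ∧
      (∀ k ∈ s.B, harm (sw k (s.pl k)) → cls (s.own k) = 2) := by
  obtain ⟨Rep, E, s, rk, cls, h1, h2, h3, h4, h5, h6, h7, h8, h9, h10, -⟩ :=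
    alloc85k2 mem adj sw harm hsw Rep0 h0
  exact ⟨Rep, E, s, rk, cls, h1, h2, h3, h4, h5, h6, h7, h8, h9, h10⟩

end Pool.Agent.Alloc85
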