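import Mathlib

set_option linter.all false

/-!
# MP_47cd0b (room C): allocation of rows with planes (helper95's version)

`mem k` = the points of the row `k`, `adj k` = the (coloured) planes which the row `k` may use.
A state consists of a set `B` of owned rows, an owner and a plane for each of them; different rows of
`B` have different planes. `Rep` = the points which own nothing and whose rows are not available.
-/

namespace Pool.Agent.Alloc85

open Relation Finset

variable {X K Q : Type*} [Fintype X] [DecidableEq X] [Fintype K] [DecidableEq K]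
  [DecidableEq Q]

theorem neOf {α : Type*} {B : Finset α} {a b : α} (ha : a ∈ B) (hb : b ∉ B) : a ≠ b :=
  fun e => hb (e ▸ ha)

/-- a state -/
structure St (X K Q : Type*) where
  B : Finset K
  own : K → X
  pl : K → Q

/-- the load of `z` -/
def ld (s : St X K Q) (z : X) : ℕ := (s.B.filter fun k => s.own k = z).card

/-- feasible states with available rows `Av` -/
structure Ok (mem : K → Finset X) (adj : K → Finset Q) (Av : K → Prop) (s : St X K Q) : Prop where
  av : ∀ k ∈ s.B, Av k
  own : ∀ k ∈ s.B, s.own k ∈ mem k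
  pl : ∀ k ∈ s.B, s.pl k ∈ adj k
  inj : ∀ k ∈ s.B, ∀ k' ∈ s.B, s.pl k = s.pl k' → k = k'

/-- `z` owns a row containing `z'`, or its plane may be used by an unowned row containing `z'` -/
def Step (mem : K → Finset X) (adj : K → Finset Q) (Av : K → Prop) (s : St X K Q) (z z' : X) :
    Prop :=
  ∃ k ∈ s.B, s.own k = z ∧ (z' ∈ mem k ∨ ∃ k0, k0 ∉ s.B ∧ Av k0 ∧ s.pl k ∈ adj k0 ∧ z' ∈ mem k0)

/-- give the row `k` to `b` -/
def reown (s : St X K Q) (k : K) (b : X) : St X K Q := ⟨s.B, Function.update s.own k b, s.pl⟩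

/-- replace the row `k` by `k0`, owned by `b`, in the same plane -/
def swap (s : St X K Q) (k k0 : K) (b : X) : St X K Q :=
  ⟨insert k0 (s.B.erase k), Function.update s.own k0 b, Function.update s.pl k0 (s.pl k)⟩

/-- add the row `k0` with owner `b` and plane `q` -/
def add (s : St X K Q) (k0 : K) (b : X) (q : Q) : St X K Q :=
  ⟨insert k0 s.B, Function.update s.own k0 b, Function.update s.pl k0 q⟩

theorem ld_split (s : St X K Q) {k : K} (hk : k ∈ s.B) (y : X) :
    ld s y = (if s.own k = y then 1 else 0) + ((s.B.erase k).filter fun k' => s.own k' = y).card := by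
  unfold ld
  conv_lhs => rw [← Finset.insert_erase hk, Finset.filter_insert]
  split_ifs with h
  · rw [Finset.card_insert_of_notMem (by simp)]
    omega
  · omega

theorem ld_reown (s : St X K Q) {k : K} (hk : k ∈ s.B) (b y : X) :
    ld (reown s k b) y + (if y = s.own k then 1 else 0) = ld s y + (if y = b then 1 else 0) := by
  have hk' : k ∈ (reown s k b).B := hk
  rw [ld_split _ hk', ld_split s hk]
  have h1 : (((reown s k b).B.erase k).filter fun k' => (reown s k b).own k' = y)
      = (s.B.erase k).filter fun k' => s.own k' = y := by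
    show ((s.B.erase k).filter fun k' => Function.update s.own k b k' = y) = _
    apply Finset.filter_congr
    intro k' hk'
    rw [Function.update_of_ne (Finset.ne_of_mem_erase hk')]
  have h2 : (reown s k b).own k = b := Function.update_self ..
  rw [h1, h2]
  by_cases h3 : y = s.own k
  · by_cases h4 : y = b
    · rw [if_pos h4.symm, if_pos h3, if_pos h3.symm, if_pos h4]
    · rw [if_neg (fun h => h4 h.symm), if_pos h3, if_pos h3.symm, if_neg h4]; omega
  · by_cases h4 : y = b
    · rw [if_pos h4.symm, if_neg h3, if_neg (fun h => h3 h.symm), if_pos h4]; omega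
    · rw [if_neg (fun h => h4 h.symm), if_neg h3, if_neg (fun h => h3 h.symm), if_neg h4]

theorem ld_add (s : St X K Q) {k0 : K} (hk0 : k0 ∉ s.B) (b : X) (q : Q) (y : X) :
    ld (add s k0 b q) y = ld s y + (if y = b then 1 else 0) := by
  have hk' : k0 ∈ (add s k0 b q).B := Finset.mem_insert_self _ _
  rw [ld_split _ hk']
  have h1 : (((add s k0 b q).B.erase k0).filter fun k' => (add s k0 b q).own k' = y)
      = s.B.filter fun k' => s.own k' = y := by
    show (((insert k0 s.B).erase k0).filter fun k' => Function.update s.own k0 b k' = y) = _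
    rw [Finset.erase_insert hk0]
    apply Finset.filter_congr
    intro k' hk'
    rw [Function.update_of_ne (neOf hk' hk0)]
  have h2 : (add s k0 b q).own k0 = b := Function.update_self ..
  rw [h1, h2]
  unfold ld
  by_cases h4 : y = b
  · rw [if_pos h4.symm, if_pos h4]; omega
  · rw [if_neg (fun h => h4 h.symm), if_neg h4]; omega

theorem ld_swap (s : St X K Q) {k k0 : K} (hk : k ∈ s.B) (hk0 : k0 ∉ s.B) (b y : X) :
    ld (swap s k k0 b) y + (if y = s.own k then 1 else 0) = ld s y + (if y = b then 1 else 0) := by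
  have hk' : k0 ∈ (swap s k k0 b).B := Finset.mem_insert_self _ _
  rw [ld_split _ hk', ld_split s hk]
  have h1 : (((swap s k k0 b).B.erase k0).filter fun k' => (swap s k k0 b).own k' = y)
      = (s.B.erase k).filter fun k' => s.own k' = y := by
    show (((insert k0 (s.B.erase k)).erase k0).filter
      fun k' => Function.update s.own k0 b k' = y) = _
    rw [Finset.erase_insert (fun h => hk0 (Finset.mem_of_mem_erase h))]
    apply Finset.filter_congr
    intro k' hk'
    rw [Function.update_of_ne (neOf (Finset.mem_of_mem_erase hk') hk0)]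
  have h2 : (swap s k k0 b).own k0 = b := Function.update_self ..
  rw [h1, h2]
  by_cases h3 : y = s.own k
  · by_cases h4 : y = b
    · rw [if_pos h4.symm, if_pos h3, if_pos h3.symm, if_pos h4]
    · rw [if_neg (fun h => h4 h.symm), if_pos h3, if_pos h3.symm, if_neg h4]; omega
  · by_cases h4 : y = b
    · rw [if_pos h4.symm, if_neg h3, if_neg (fun h => h3 h.symm), if_pos h4]; omega
    · rw [if_neg (fun h => h4 h.symm), if_neg h3, if_neg (fun h => h3 h.symm), if_neg h4]

section

variable {mem : K → Finset X} {adj : K → Finset Q} {Av : K → Prop} {s : St X K Q}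

theorem Ok.reown (h : Ok mem adj Av s) {k : K} (hk : k ∈ s.B) {b : X} (hb : b ∈ mem k) :
    Ok mem adj Av (reown s k b) where
  av := h.av
  own := by
    intro k' hk'
    show Function.update s.own k b k' ∈ mem k'
    by_cases e : k' = k
    · subst e; rw [Function.update_self]; exact hb
    · rw [Function.update_of_ne e]; exact h.own k' hk'
  pl := h.pl
  inj := h.inj

theorem Ok.swap (h : Ok mem adj Av s) {k k0 : K} (hk : k ∈ s.B) (hk0 : k0 ∉ s.B) (hav : Av k0)
    (hq : s.pl k ∈ adj k0) {b : X} (hb : b ∈ mem k0) : Ok mem adj Av (swap s k k0 b) where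
  av := by
    intro k' hk'
    rcases Finset.mem_insert.1 hk' with rfl | h1
    · exact hav
    · exact h.av k' (Finset.mem_of_mem_erase h1)
  own := by
    intro k' hk'
    show Function.update s.own k0 b k' ∈ mem k'
    rcases Finset.mem_insert.1 hk' with rfl | h1
    · rw [Function.update_self]; exact hb
    · have h2 := Finset.mem_of_mem_erase h1
      rw [Function.update_of_ne (neOf h2 hk0)]
      exact h.own k' h2
  pl := by
    intro k' hk'
    show Function.update s.pl k0 (s.pl k) k' ∈ adj k'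
    rcases Finset.mem_insert.1 hk' with rfl | h1
    · rw [Function.update_self]; exact hq
    · have h2 := Finset.mem_of_mem_erase h1
      rw [Function.update_of_ne (neOf h2 hk0)]
      exact h.pl k' h2
  inj := by
    intro k1 hk1 k2 hk2 he
    change Function.update s.pl k0 (s.pl k) k1 = Function.update s.pl k0 (s.pl k) k2 at he
    rcases Finset.mem_insert.1 hk1 with rfl | h1
    · rcases Finset.mem_insert.1 hk2 with rfl | h2
      · rfl
      · have h3 := Finset.mem_of_mem_erase h2
        rw [Function.update_self, Function.update_of_ne (neOf h3 hk0)] at he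
        exact absurd (h.inj k hk k2 h3 he).symm (Finset.ne_of_mem_erase h2)
    · have h3 := Finset.mem_of_mem_erase h1
      rw [Function.update_of_ne (neOf h3 hk0)] at he
      rcases Finset.mem_insert.1 hk2 with rfl | h2
      · rw [Function.update_self] at he
        exact absurd (h.inj k1 h3 k hk he) (Finset.ne_of_mem_erase h1)
      · have h4 := Finset.mem_of_mem_erase h2
        rw [Function.update_of_ne (neOf h4 hk0)] at he
        exact h.inj k1 h3 k2 h4 he

theorem Ok.add (h : Ok mem adj Av s) {k0 : K} (hk0 : k0 ∉ s.B) {Av' : K → Prop}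
    (hAv : ∀ k, Av k → Av' k) (hav : Av' k0) {q : Q} (hq : q ∈ adj k0)
    (hfree : ∀ k ∈ s.B, s.pl k ≠ q) {b : X} (hb : b ∈ mem k0) :
    Ok mem adj Av' (add s k0 b q) where
  av := by
    intro k' hk'
    rcases Finset.mem_insert.1 hk' with rfl | h1
    · exact hav
    · exact hAv _ (h.av k' h1)
  own := by
    intro k' hk'
    show Function.update s.own k0 b k' ∈ mem k'
    rcases Finset.mem_insert.1 hk' with rfl | h1
    · rw [Function.update_self]; exact hb
    · rw [Function.update_of_ne (neOf h1 hk0)]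
      exact h.own k' h1
  pl := by
    intro k' hk'
    show Function.update s.pl k0 q k' ∈ adj k'
    rcases Finset.mem_insert.1 hk' with rfl | h1
    · rw [Function.update_self]; exact hq
    · rw [Function.update_of_ne (neOf h1 hk0)]
      exact h.pl k' h1
  inj := by
    intro k1 hk1 k2 hk2 he
    change Function.update s.pl k0 q k1 = Function.update s.pl k0 q k2 at he
    rcases Finset.mem_insert.1 hk1 with rfl | h1
    · rcases Finset.mem_insert.1 hk2 with rfl | h2
      · rfl
      · rw [Function.update_self, Function.update_of_ne (neOf h2 hk0)] at he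
        exact absurd he.symm (hfree k2 h2)
    · rw [Function.update_of_ne (neOf h1 hk0)] at he
      rcases Finset.mem_insert.1 hk2 with rfl | h2
      · rw [Function.update_self] at he
        exact absurd he (hfree k1 h1)
      · rw [Function.update_of_ne (neOf h2 hk0)] at he
        exact h.inj k1 h1 k2 h2 he

theorem Ok.mono (h : Ok mem adj Av s) {Av' : K → Prop} (hAv : ∀ k, Av k → Av' k) :
    Ok mem adj Av' s := ⟨fun k hk => hAv k (h.av k hk), h.own, h.pl, h.inj⟩

/-- shifting one unit along a path with given rows -/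
theorem shift_path (h : Ok mem adj Av s) (p : ℕ → X) (kk ka : ℕ → K) (ty : ℕ → Prop) (n : ℕ)
    (h1 : ∀ i < n, kk i ∈ s.B ∧ s.own (kk i) = p i)
    (h2 : ∀ i < n, (ty i ∧ p (i + 1) ∈ mem (kk i)) ∨
      (¬ ty i ∧ ka i ∉ s.B ∧ Av (ka i) ∧ s.pl (kk i) ∈ adj (ka i) ∧ p (i + 1) ∈ mem (ka i)))
    (h3 : ∀ i j, i < j → j < n → p i ≠ p j)
    (h4 : ∀ i j, i < j → j < n → ¬ ty i → ¬ ty j → ka i ≠ ka j) :
    ∃ s' : St X K Q, Ok mem adj Av s' ∧ s'.B.card = s.B.card ∧
      (∀ k ∈ s.B, (∀ i < n, s.own k ≠ p i) → k ∈ s'.B ∧ s'.own k = s.own k ∧ s'.pl k = s.pl k) ∧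
      (∀ k ∈ s'.B, k ∉ s.B → ∃ i < n, ¬ ty i ∧ k = ka i) ∧
      ∀ y, ld s' y + (if y = p 0 then 1 else 0) = ld s y + (if y = p n then 1 else 0) := by
  induction n with
  | zero => exact ⟨s, h, rfl, fun k hk _ => ⟨hk, rfl, rfl⟩, fun k hk hk' => absurd hk hk',
      fun y => rfl⟩
  | succ n ih =>
    obtain ⟨o, ho, hc, hkeep, hnew, hl⟩ := ih (fun i hi => h1 i (by omega))
      (fun i hi => h2 i (by omega)) (fun i j hij hj => h3 i j hij (by omega))
      (fun i j hij hj => h4 i j hij (by omega))
    obtain ⟨hkB, hko⟩ := h1 n (by omega)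
    obtain ⟨hk1, hk2, hk3⟩ := hkeep (kk n) hkB
      (fun i hi => by rw [hko]; exact (h3 i n hi (by omega)).symm)
    have hok : o.own (kk n) = p n := by rw [hk2, hko]
    rcases h2 n (by omega) with ⟨hty, hm⟩ | ⟨hty, hka, hav, hpl, hm⟩
    · refine ⟨reown o (kk n) (p (n + 1)), ho.reown hk1 hm, hc, ?_, ?_, ?_⟩
      · intro k hk hne
        obtain ⟨e1, e2, e3⟩ := hkeep k hk (fun i hi => hne i (by omega))
        have e4 : k ≠ kk n := by
          rintro rfl
          exact hne n (by omega) hko
        refine ⟨e1, ?_, e3⟩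
        show Function.update o.own (kk n) (p (n + 1)) k = _
        rw [Function.update_of_ne e4, e2]
      · intro k hk hk'
        obtain ⟨i, hi, e1, e2⟩ := hnew k hk hk'
        exact ⟨i, by omega, e1, e2⟩
      · intro y
        have e1 := ld_reown o hk1 (p (n + 1)) y
        have e2 := hl y
        rw [hok] at e1
        omega
    · have hkaB : ka n ∉ o.B := by
        intro hcon
        obtain ⟨i, hi, e1, e2⟩ := hnew (ka n) hcon hka
        exact h4 i n hi (by omega) e1 hty e2.symm
      refine ⟨swap o (kk n) (ka n) (p (n + 1)), ho.swap hk1 hkaB hav (by rw [hk3]; exact hpl) hm,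
        ?_, ?_, ?_, ?_⟩
      · show (insert (ka n) (o.B.erase (kk n))).card = _
        rw [Finset.card_insert_of_notMem (fun e => hkaB (Finset.mem_of_mem_erase e)),
          Finset.card_erase_of_mem hk1, ← hc]
        have : 0 < o.B.card := Finset.card_pos.2 ⟨_, hk1⟩
        omega
      · intro k hk hne
        obtain ⟨e1, e2, e3⟩ := hkeep k hk (fun i hi => hne i (by omega))
        have e4 : k ≠ kk n := by
          rintro rfl
          exact hne n (by omega) hko
        have e5 : k ≠ ka n := neOf hk hka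
        refine ⟨Finset.mem_insert_of_mem (Finset.mem_erase.2 ⟨e4, e1⟩), ?_, ?_⟩
        · show Function.update o.own (ka n) (p (n + 1)) k = _
          rw [Function.update_of_ne e5, e2]
        · show Function.update o.pl (ka n) (o.pl (kk n)) k = _
          rw [Function.update_of_ne e5, e3]
      · intro k hk hk'
        rcases Finset.mem_insert.1 hk with rfl | e0
        · exact ⟨n, by omega, hty, rfl⟩
        · obtain ⟨i, hi, e1, e2⟩ := hnew k (Finset.mem_of_mem_erase e0) hk'
          exact ⟨i, by omega, e1, e2⟩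
      · intro y
        have e1 := ld_swap o hk1 hkaB (p (n + 1)) y
        have e2 := hl y
        rw [hok] at e1
        omega

/-- a shortest path -/
theorem exists_path {R : X → X → Prop} {z z' : X} (h : ReflTransGen R z z') :
    ∃ (n : ℕ) (p : ℕ → X), p 0 = z ∧ p n = z' ∧ (∀ i < n, R (p i) (p (i + 1))) ∧
      (∀ i j, i < j → j < n → ¬ R (p i) (p (j + 1))) ∧ ∀ i j, i < j → j ≤ n → p i ≠ p j := by
  classical
  have hex : ∃ n : ℕ, ∃ p : ℕ → X, p 0 = z ∧ p n = z' ∧ ∀ i < n, R (p i) (p (i + 1)) := by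
    induction h with
    | refl => exact ⟨0, fun _ => z, rfl, rfl, fun i hi => absurd hi (by omega)⟩
    | @tail a b _ hab ih =>
      obtain ⟨n, p, h0, hn, hs⟩ := ih
      refine ⟨n + 1, fun t => if t ≤ n then p t else b, by simp [h0], by simp, ?_⟩
      intro i hi
      show R (if i ≤ n then p i else b) (if i + 1 ≤ n then p (i + 1) else b)
      by_cases h1 : i + 1 ≤ n
      · rw [if_pos (by omega), if_pos h1]
        exact hs i (by omega)
      · have h2 : i = n := by omega
        subst h2
        rw [if_pos le_rfl, if_neg (by omega), hn]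
        exact hab
  obtain ⟨p, h0, hn, hs⟩ := Nat.find_spec hex
  have hcut : ∀ i j, i < j → j < Nat.find hex → ¬ R (p i) (p (j + 1)) := by
    intro i j hij hj hR
    have hlt : Nat.find hex - (j - i) < Nat.find hex := by omega
    refine Nat.find_min hex hlt ⟨fun t => if t ≤ i then p t else p (t + (j - i)), ?_, ?_, ?_⟩
    · simp [h0]
    · simp only
      rw [if_neg (by omega), Nat.sub_add_cancel (by omega), hn]
    · intro t ht
      show R (if t ≤ i then p t else p (t + (j - i)))
        (if t + 1 ≤ i then p (t + 1) else p (t + 1 + (j - i)))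
      by_cases h1 : t + 1 ≤ i
      · rw [if_pos (by omega), if_pos h1]
        exact hs t (by omega)
      · by_cases h2 : t ≤ i
        · have h3 : t = i := by omega
          subst h3
          rw [if_pos le_rfl, if_neg h1, show t + 1 + (j - t) = j + 1 by omega]
          exact hR
        · rw [if_neg h2, if_neg h1]
          have h4 := hs (t + (j - i)) (by omega)
          rwa [show t + 1 + (j - i) = t + (j - i) + 1 by omega]
  refine ⟨Nat.find hex, p, h0, hn, hs, hcut, ?_⟩
  intro i j hij hj heq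
  rcases Nat.lt_or_ge j (Nat.find hex) with hlt | hge
  · exact hcut i j hij hlt (by rw [heq]; exact hs j hlt)
  · have hj' : j = Nat.find hex := by omega
    refine Nat.find_min hex (show i < Nat.find hex by omega) ⟨p, h0, ?_, fun t ht => hs t (by omega)⟩
    rw [heq, hj', hn]

/-- **shift** of one unit of load from `z` to `z'`; the rows of `z'` are kept -/
theorem shift85 (h : Ok mem adj Av s) {z z' : X} (hr : ReflTransGen (Step mem adj Av s) z z') :
    ∃ s' : St X K Q, Ok mem adj Av s' ∧ s'.B.card = s.B.card ∧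
      (∀ k ∈ s.B, s.own k = z' → k ∈ s'.B ∧ s'.own k = z' ∧ s'.pl k = s.pl k) ∧
      ∀ y, ld s' y + (if y = z then 1 else 0) = ld s y + (if y = z' then 1 else 0) := by
  classical
  obtain ⟨n, p, h0, hn, hs, hcut, hdis⟩ := exists_path hr
  rcases Nat.eq_zero_or_pos n with hn0 | hn0
  · subst hn0
    have e : z = z' := h0.symm.trans hn
    subst e
    exact ⟨s, h, rfl, fun k hk ho => ⟨hk, ho, rfl⟩, fun y => rfl⟩
  have hc : ∀ i : ℕ, ∃ k k0 : K, i < n → k ∈ s.B ∧ s.own k = p i ∧ (p (i + 1) ∈ mem k ∨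
      (k0 ∉ s.B ∧ Av k0 ∧ s.pl k ∈ adj k0 ∧ p (i + 1) ∈ mem k0)) := by
    intro i
    rcases Nat.lt_or_ge i n with hi | hi
    · obtain ⟨k, hk, ho, hh⟩ := hs i hi
      rcases hh with hh | ⟨k0, e1, e2, e3, e4⟩
      · exact ⟨k, k, fun _ => ⟨hk, ho, Or.inl hh⟩⟩
      · exact ⟨k, k0, fun _ => ⟨hk, ho, Or.inr ⟨e1, e2, e3, e4⟩⟩⟩
    · obtain ⟨k, _, _, _⟩ := hs 0 hn0
      exact ⟨k, k, fun hi' => absurd hi' (by omega)⟩
  choose kk ka hkk using hc
  obtain ⟨s', g1, g2, g3, -, g5⟩ := shift_path h p kk ka (fun i => p (i + 1) ∈ mem (kk i)) n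
    (fun i hi => ⟨(hkk i hi).1, (hkk i hi).2.1⟩)
    (fun i hi => by
      by_cases e : p (i + 1) ∈ mem (kk i)
      · exact Or.inl ⟨e, e⟩
      · rcases (hkk i hi).2.2 with e1 | e1
        · exact absurd e1 e
        · exact Or.inr ⟨e, e1⟩)
    (fun i j hij hj => hdis i j hij hj.le)
    (fun i j hij hj ti tj he => by
      have hi : i < n := by omega
      have e1 : ka i ∉ s.B ∧ Av (ka i) ∧ s.pl (kk i) ∈ adj (ka i) ∧ p (i + 1) ∈ mem (ka i) := by
        rcases (hkk i hi).2.2 with e1 | e1
        · exact absurd e1 ti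
        · exact e1
      have e2 : ka j ∉ s.B ∧ Av (ka j) ∧ s.pl (kk j) ∈ adj (ka j) ∧ p (j + 1) ∈ mem (ka j) := by
        rcases (hkk j hj).2.2 with e2 | e2
        · exact absurd e2 tj
        · exact e2
      exact hcut i j hij hj ⟨kk i, (hkk i hi).1, (hkk i hi).2.1,
        Or.inr ⟨ka i, e1.1, e1.2.1, e1.2.2.1, by rw [he]; exact e2.2.2.2⟩⟩)
  refine ⟨s', g1, g2, ?_, ?_⟩
  · intro k hk ho
    obtain ⟨e1, e2, e3⟩ := g3 k hk (fun i hi => by
      rw [ho, ← hn]
      exact (hdis i n hi le_rfl).symm)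
    exact ⟨e1, e2.trans ho, e3⟩
  · intro y
    have := g5 y
    rwa [h0, hn] at this

end

/-! ### the best state -/

/-- the rows which do not meet `Rep` -/
def AvR (mem : K → Finset X) (Rep : Finset X) (k : K) : Prop := ∀ z ∈ mem k, z ∉ Rep

/-- feasible for `Rep`: every point outside `Rep` owns a row -/
def Feas (mem : K → Finset X) (adj : K → Finset Q) (Rep : Finset X) (s : St X K Q) : Prop :=
  Ok mem adj (AvR mem Rep) s ∧ ∀ z, z ∉ Rep → 1 ≤ ld s z

/-- the sum of the squares of the loads -/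
def sq (s : St X K Q) : ℕ := ∑ y, ld s y ^ 2

theorem sq_shift {s s' : St X K Q} {z z' : X} (hne : z ≠ z')
    (h : ∀ y, ld s' y + (if y = z then 1 else 0) = ld s y + (if y = z' then 1 else 0))
    (hlt : ld s z' + 1 < ld s z) : sq s' < sq s := by
  classical
  unfold sq
  have hz' : z' ∈ univ.erase z := mem_erase.2 ⟨hne.symm, mem_univ _⟩
  rw [← Finset.add_sum_erase _ _ (mem_univ z), ← Finset.add_sum_erase _ _ hz',
    ← Finset.add_sum_erase (f := fun y => ld s y ^ 2) _ (mem_univ z),
    ← Finset.add_sum_erase (f := fun y => ld s y ^ 2) _ hz']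
  have h1 : ∑ y ∈ (univ.erase z).erase z', ld s' y ^ 2
      = ∑ y ∈ (univ.erase z).erase z', ld s y ^ 2 := by
    refine Finset.sum_congr rfl fun y hy => ?_
    have h2 := h y
    rw [if_neg (Finset.ne_of_mem_erase (Finset.mem_of_mem_erase hy)),
      if_neg (Finset.ne_of_mem_erase hy)] at h2
    simp only [add_zero] at h2
    rw [h2]
  rw [h1]
  have h3 := h z
  have h4 := h z'
  rw [if_pos rfl, if_neg hne] at h3
  rw [if_neg hne.symm, if_pos rfl] at h4
  have h5 : ld s' z' = ld s z' + 1 := by omega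
  obtain ⟨d, hd⟩ : ∃ d, ld s z = ld s z' + 2 + d := ⟨ld s z - (ld s z' + 2), by omega⟩
  have h6 : ld s' z = ld s z' + 1 + d := by omega
  rw [h5, h6, hd]
  nlinarith

/-- a minimiser of a natural number valued function -/
theorem exists_min {α : Type*} (P : α → Prop) (f : α → ℕ) (h : ∃ a, P a) :
    ∃ a, P a ∧ ∀ b, P b → f a ≤ f b := by
  classical
  have hex : ∃ n, ∃ a, P a ∧ f a = n := by
    obtain ⟨a, ha⟩ := h
    exact ⟨f a, a, ha, rfl⟩
  obtain ⟨a, ha, hfa⟩ := Nat.find_spec hex
  exact ⟨a, ha, fun b hb => by rw [hfa]; exact Nat.find_min' hex ⟨b, hb, rfl⟩⟩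

/-- best states -/
structure Best (mem : K → Finset X) (adj : K → Finset Q) (Rep : Finset X) (s : St X K Q) :
    Prop where
  feas : Feas mem adj Rep s
  card : ∀ t, Feas mem adj Rep t → t.B.card ≤ s.B.card
  sq : ∀ t, Feas mem adj Rep t → t.B.card = s.B.card → sq s ≤ sq t

theorem exists_best (mem : K → Finset X) (adj : K → Finset Q) (Rep : Finset X)
    (h : ∃ s, Feas mem adj Rep s) : ∃ s, Best mem adj Rep s := by
  obtain ⟨s1, h1, h2⟩ := exists_min (Feas mem adj Rep)
    (fun s => Fintype.card K - s.B.card) h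
  obtain ⟨s, h3, h4⟩ := exists_min
    (fun s => Feas mem adj Rep s ∧ s.B.card = s1.B.card) (fun s => sq s) ⟨s1, h1, rfl⟩
  refine ⟨s, h3.1, ?_, ?_⟩
  · intro t ht
    have e1 := h2 t ht
    have e2 : t.B.card ≤ Fintype.card K := Finset.card_le_univ _
    have e3 : s1.B.card ≤ Fintype.card K := Finset.card_le_univ _
    rw [h3.2]
    omega
  · intro t ht hc
    exact h4 t ⟨ht, hc.trans h3.2⟩

section

variable {mem : K → Finset X} {adj : K → Finset Q} {Rep : Finset X} {s : St X K Q}

/-- shifting keeps feasibility if the giver has at least two rows -/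
theorem Feas.shift (h : Feas mem adj Rep s) {z z' : X}
    (hr : ReflTransGen (Step mem adj (AvR mem Rep) s) z z') (h2 : 2 ≤ ld s z) :
    ∃ s' : St X K Q, Feas mem adj Rep s' ∧ s'.B.card = s.B.card ∧
      (∀ k ∈ s.B, s.own k = z' → k ∈ s'.B ∧ s'.own k = z' ∧ s'.pl k = s.pl k) ∧
      ∀ y, ld s' y + (if y = z then 1 else 0) = ld s y + (if y = z' then 1 else 0) := by
  obtain ⟨s', g1, g2, g3, g4⟩ := shift85 h.1 hr
  refine ⟨s', ⟨g1, fun y hy => ?_⟩, g2, g3, g4⟩
  have e1 := g4 y
  have e2 := h.2 y hy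
  by_cases e3 : y = z
  · subst e3
    rw [if_pos rfl] at e1
    omega
  · rw [if_neg e3] at e1
    omega

theorem Best.reach (hb : Best mem adj Rep s) {z z' : X}
    (hr : ReflTransGen (Step mem adj (AvR mem Rep) s) z z') : ld s z ≤ ld s z' + 1 := by
  by_contra hcon
  push Not at hcon
  obtain ⟨s', g1, g2, -, g4⟩ := hb.feas.shift hr (by omega)
  have hne : z ≠ z' := by rintro rfl; omega
  exact absurd (sq_shift hne g4 hcon) (not_lt.2 (hb.sq s' g1 g2))

end

/-- the class of a point -/
noncomputable def cls (mem : K → Finset X) (adj : K → Finset Q) (Rep : Finset X) (s : St X K Q)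
    (z : X) : ℕ :=
  sInf (ld s '' {y | ReflTransGen (Step mem adj (AvR mem Rep) s) z y})

/-- everybody who reaches `z` owns exactly one row -/
def Dst (mem : K → Finset X) (adj : K → Finset Q) (Rep : Finset X) (s : St X K Q) (z : X) : Prop :=
  ∀ w, ReflTransGen (Step mem adj (AvR mem Rep) s) w z → ld s w = 1

section

variable {mem : K → Finset X} {adj : K → Finset Q} {Rep : Finset X} {s : St X K Q}

theorem cls_le {z y : X} (h : ReflTransGen (Step mem adj (AvR mem Rep) s) z y) :
    cls mem adj Rep s z ≤ ld s y := Nat.sInf_le ⟨y, h, rfl⟩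

theorem exists_cls (mem : K → Finset X) (adj : K → Finset Q) (Rep : Finset X) (s : St X K Q)
    (z : X) : ∃ y, ReflTransGen (Step mem adj (AvR mem Rep) s) z y ∧
      ld s y = cls mem adj Rep s z := by
  have h := Nat.sInf_mem (s := ld s '' {y | ReflTransGen (Step mem adj (AvR mem Rep) s) z y})
    ⟨_, z, ReflTransGen.refl, rfl⟩
  obtain ⟨y, h1, h2⟩ := h
  exact ⟨y, h1, h2⟩

theorem cls_mono {z z' : X} (h : ReflTransGen (Step mem adj (AvR mem Rep) s) z z') :
    cls mem adj Rep s z ≤ cls mem adj Rep s z' := by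
  obtain ⟨y, h1, h2⟩ := exists_cls mem adj Rep s z'
  rw [← h2]
  exact cls_le (h.trans h1)

theorem Dst.back {z z' : X} (h : ReflTransGen (Step mem adj (AvR mem Rep) s) z z')
    (hd : Dst mem adj Rep s z') : Dst mem adj Rep s z := fun w hw => hd w (hw.trans h)

theorem Step.notRep (h : Ok mem adj (AvR mem Rep) s) {z z' : X}
    (hs : Step mem adj (AvR mem Rep) s z z') : z ∉ Rep ∧ z' ∉ Rep := by
  obtain ⟨k, hk, ho, hh⟩ := hs
  refine ⟨by rw [← ho]; exact h.av k hk _ (h.own k hk), ?_⟩
  rcases hh with hh | ⟨k0, _, hav, _, hm⟩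
  · exact h.av k hk _ hh
  · exact hav _ hm

theorem reach_notRep (h : Ok mem adj (AvR mem Rep) s) {z z' : X} (hz : z ∉ Rep)
    (hr : ReflTransGen (Step mem adj (AvR mem Rep) s) z z') : z' ∉ Rep := by
  induction hr with
  | refl => exact hz
  | tail _ hs _ => exact (Step.notRep h hs).2

theorem reach_notRep' (h : Ok mem adj (AvR mem Rep) s) {z z' : X} (hz : z' ∉ Rep)
    (hr : ReflTransGen (Step mem adj (AvR mem Rep) s) z z') : z ∉ Rep := by
  rcases Relation.ReflTransGen.cases_head hr with e | ⟨y, hs, _⟩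
  · rw [e]; exact hz
  · exact (Step.notRep h hs).1

end

/-- **Allocation** -/
theorem alloc85 (mem : K → Finset X) (adj : K → Finset Q) (Rep0 : Finset X)
    (h0 : ∃ s, Feas mem adj Rep0 s) :
    ∃ (Rep : Finset X) (s : St X K Q) (cl : X → ℕ) (D : X → Prop), Rep ⊆ Rep0 ∧
      (∀ k ∈ s.B, (∀ z ∈ mem k, z ∉ Rep) ∧ s.own k ∈ mem k ∧ s.pl k ∈ adj k) ∧
      (∀ k ∈ s.B, ∀ k' ∈ s.B, s.pl k = s.pl k' → k = k') ∧
      (∀ z, z ∉ Rep → 1 ≤ cl z ∧ cl z ≤ ld s z ∧ ld s z ≤ cl z + 1) ∧
      (∀ k ∈ s.B, ∀ z ∈ mem k, cl (s.own k) ≤ cl z ∧ (D z → D (s.own k))) ∧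
      (∀ k0, k0 ∉ s.B → (∀ z ∈ mem k0, z ∉ Rep) → (mem k0).Nonempty → ∀ q ∈ adj k0,
        ∃ k ∈ s.B, s.pl k = q ∧ ∀ z ∈ mem k0, cl (s.own k) ≤ cl z ∧ (D z → D (s.own k))) ∧
      (∀ z, D z → ld s z = 1) ∧
      (∀ r ∈ Rep, ∀ k0, r ∈ mem k0 → (∀ z ∈ mem k0, z ∈ Rep → z = r) → ∀ q ∈ adj k0,
        ∃ k ∈ s.B, s.pl k = q ∧ D (s.own k)) := by
  classical
  obtain ⟨Rep, ⟨hRep, hRf⟩, hmin⟩ := exists_min
    (fun R : Finset X => R ⊆ Rep0 ∧ ∃ s : St X K Q, Feas mem adj R s) (fun R => R.card)
    ⟨Rep0, subset_rfl, h0⟩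
  obtain ⟨s, hb⟩ := exists_best mem adj Rep hRf
  have hok := hb.feas.1
  refine ⟨Rep, s, cls mem adj Rep s, Dst mem adj Rep s, hRep, ?_, hok.inj, ?_, ?_, ?_, ?_, ?_⟩
  · exact fun k hk => ⟨hok.av k hk, hok.own k hk, hok.pl k hk⟩
  · intro z hz
    refine ⟨?_, cls_le ReflTransGen.refl, ?_⟩
    · obtain ⟨y, h1, h2⟩ := exists_cls mem adj Rep s z
      rw [← h2]
      exact hb.feas.2 y (reach_notRep hok hz h1)
    · obtain ⟨y, h1, h2⟩ := exists_cls mem adj Rep s z
      rw [← h2]
      exact hb.reach h1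
  · intro k hk z hz
    have h1 : ReflTransGen (Step mem adj (AvR mem Rep) s) (s.own k) z :=
      ReflTransGen.single ⟨k, hk, rfl, Or.inl hz⟩
    exact ⟨cls_mono h1, Dst.back h1⟩
  · intro k0 hk0 hav hne q hq
    by_cases hfree : ∀ k ∈ s.B, s.pl k ≠ q
    · exfalso
      obtain ⟨b, hbm⟩ := hne
      have h1 : Ok mem adj (AvR mem Rep) (add s k0 b q) :=
        hok.add hk0 (fun _ h => h) hav hq hfree hbm
      have h2 := hb.card (add s k0 b q) ⟨h1, fun z hz => by
        rw [ld_add s hk0]
        have := hb.feas.2 z hz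
        omega⟩
      have h3 : (add s k0 b q).B.card = s.B.card + 1 := Finset.card_insert_of_notMem hk0
      omega
    · push Not at hfree
      obtain ⟨k, hk, hkq⟩ := hfree
      refine ⟨k, hk, hkq, fun z hz => ?_⟩
      have h1 : ReflTransGen (Step mem adj (AvR mem Rep) s) (s.own k) z :=
        ReflTransGen.single ⟨k, hk, rfl, Or.inr ⟨k0, hk0, hav, by rw [hkq]; exact hq, hz⟩⟩
      exact ⟨cls_mono h1, Dst.back h1⟩
  · intro z hz
    exact hz z ReflTransGen.refl
  · intro r hr k0 hrk hk0R q hq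
    have hk0 : k0 ∉ s.B := fun h => hok.av k0 h r hrk hr
    have hsub : ∀ k, AvR mem Rep k → AvR mem (Rep.erase r) k := fun k h z hz hz' =>
      h z hz (Finset.mem_of_mem_erase hz')
    have hk0av : AvR mem (Rep.erase r) k0 := fun z hz hz' =>
      Finset.ne_of_mem_erase hz' (hk0R z hz (Finset.mem_of_mem_erase hz'))
    have hno : ¬ ∃ t : St X K Q, Feas mem adj (Rep.erase r) t := by
      intro ht
      have h1 := hmin (Rep.erase r) ⟨(Finset.erase_subset _ _).trans hRep, ht⟩
      rw [Finset.card_erase_of_mem hr] at h1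
      have : 0 < Rep.card := Finset.card_pos.2 ⟨r, hr⟩
      omega
    by_cases hfree : ∀ k ∈ s.B, s.pl k ≠ q
    · exfalso
      refine hno ⟨add s k0 r q, hok.add hk0 hsub hk0av hq hfree hrk, fun z hz => ?_⟩
      rw [ld_add s hk0]
      by_cases e : z = r
      · rw [if_pos e]; omega
      · have := hb.feas.2 z (fun h => hz (Finset.mem_erase.2 ⟨e, h⟩))
        omega
    · push Not at hfree
      obtain ⟨k, hk, hkq⟩ := hfree
      refine ⟨k, hk, hkq, ?_⟩
      by_contra hD
      unfold Dst at hD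
      push Not at hD
      obtain ⟨w, hw, hlw⟩ := hD
      have hyR : s.own k ∉ Rep := hok.av k hk _ (hok.own k hk)
      have hwR : w ∉ Rep := reach_notRep' hok hyR hw
      have hw2 : 2 ≤ ld s w := by
        have := hb.feas.2 w hwR
        omega
      obtain ⟨s', g1, g2, g3, g4⟩ := hb.feas.shift hw hw2
      obtain ⟨e1, e2, e3⟩ := g3 k hk rfl
      have hk0' : k0 ∉ s'.B := fun h => g1.1.av k0 h r hrk hr
      refine hno ⟨swap s' k k0 r, (g1.1.mono hsub).swap e1 hk0' hk0av
        (by rw [e3, hkq]; exact hq) hrk, fun z hz => ?_⟩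
      have f1 := ld_swap s' e1 hk0' r z
      have f2 := g4 z
      by_cases e : z = r
      · subst e
        have f3 : z ≠ s'.own k := fun h => hyR (by rw [← e2, ← h]; exact hr)
        rw [if_neg f3, if_pos rfl] at f1
        omega
      · have hzR : z ∉ Rep := fun h => hz (Finset.mem_erase.2 ⟨e, h⟩)
        have f3 := hb.feas.2 z hzR
        rw [if_neg e, e2] at f1
        by_cases e4 : z = s.own k
        · rw [if_pos e4] at f1 f2
          by_cases e5 : z = w
          · rw [if_pos e5] at f2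
            rw [← e5] at hw2
            omega
          · rw [if_neg e5] at f2
            omega
        · rw [if_neg e4] at f1 f2
          by_cases e5 : z = w
          · rw [if_pos e5] at f2
            rw [← e5] at hw2
            omega
          · rw [if_neg e5] at f2
            omega

/-- dropping a row -/
def drop (s : St X K Q) (k : K) : St X K Q := ⟨s.B.erase k, s.own, s.pl⟩

theorem ld_drop (s : St X K Q) {k : K} (hk : k ∈ s.B) (y : X) :
    ld (drop s k) y + (if y = s.own k then 1 else 0) = ld s y := by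
  rw [ld_split s hk]
  have h1 : ld (drop s k) y = ((s.B.erase k).filter fun k' => s.own k' = y).card := rfl
  rw [h1]
  by_cases h : y = s.own k
  · rw [if_pos h, if_pos h.symm]; omega
  · rw [if_neg h, if_neg (fun e => h e.symm)]; omega

/-- the planes of `k` with the harmful ones outside `E` left out -/
noncomputable def adjE (adj : K → Finset Q) (harm : K → Q → Prop) (E : Finset (K × Q)) (k : K) :
    Finset Q := by
  classical
  exact (adj k).filter fun q => ¬ harm k q ∨ (k, q) ∈ E

theorem mem_adjE {adj : K → Finset Q} {harm : K → Q → Prop} {E : Finset (K × Q)} {k : K} {q : Q} :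
    q ∈ adjE adj harm E k ↔ q ∈ adj k ∧ (¬ harm k q ∨ (k, q) ∈ E) := by
  classical
  unfold adjE
  rw [Finset.mem_filter]

/-- **Allocation with harmful edges**: a harmful edge `(k, pl k)` is only used by a point `x` such
that everybody who reaches `x` owns exactly one row. -/
theorem alloc85h (mem : K → Finset X) (adj : K → Finset Q) (harm : K → Q → Prop)
    (Rep0 : Finset X) (h0 : ∃ s, Feas mem adj Rep0 s) :
    ∃ (Rep : Finset X) (adj' : K → Finset Q) (s : St X K Q) (cl : X → ℕ) (D : X → Prop),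
      Rep ⊆ Rep0 ∧ (∀ k, adj' k ⊆ adj k) ∧ (∀ k, ∀ q ∈ adj k, ¬ harm k q → q ∈ adj' k) ∧
      (∀ k ∈ s.B, (∀ z ∈ mem k, z ∉ Rep) ∧ s.own k ∈ mem k ∧ s.pl k ∈ adj' k) ∧
      (∀ k ∈ s.B, ∀ k' ∈ s.B, s.pl k = s.pl k' → k = k') ∧
      (∀ z, z ∉ Rep → 1 ≤ cl z ∧ cl z ≤ ld s z ∧ ld s z ≤ cl z + 1) ∧
      (∀ k ∈ s.B, ∀ z ∈ mem k, cl (s.own k) ≤ cl z ∧ (D z → D (s.own k))) ∧
      (∀ k0, k0 ∉ s.B → (∀ z ∈ mem k0, z ∉ Rep) → (mem k0).Nonempty → ∀ q ∈ adj' k0,
        ∃ k ∈ s.B, s.pl k = q ∧ ∀ z ∈ mem k0, cl (s.own k) ≤ cl z ∧ (D z → D (s.own k))) ∧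
      (∀ z, D z → ld s z = 1) ∧
      (∀ r ∈ Rep, ∀ k0, r ∈ mem k0 → (∀ z ∈ mem k0, z ∈ Rep → z = r) → ∀ q ∈ adj' k0,
        ∃ k ∈ s.B, s.pl k = q ∧ D (s.own k)) ∧
      (∀ k ∈ s.B, harm k (s.pl k) → D (s.own k)) := by
  classical
  -- the harmful edges which are used by the given state suffice
  have hstart : ∃ E : Finset (K × Q), ∃ s : St X K Q, Feas mem (adjE adj harm E) Rep0 s := by
    obtain ⟨s, hs⟩ := h0
    refine ⟨s.B.image fun k => (k, s.pl k), s, ⟨hs.1.av, hs.1.own, fun k hk => ?_, hs.1.inj⟩, hs.2⟩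
    rw [mem_adjE]
    exact ⟨hs.1.pl k hk, Or.inr (Finset.mem_image.2 ⟨k, hk, rfl⟩)⟩
  obtain ⟨E0, hE0⟩ := hstart
  obtain ⟨⟨Rep, E⟩, ⟨hRep, hRf⟩, hmin⟩ := exists_min
    (fun p : Finset X × Finset (K × Q) => p.1 ⊆ Rep0 ∧
      ∃ s : St X K Q, Feas mem (adjE adj harm p.2) p.1 s) (fun p => p.1.card + p.2.card)
    ⟨(Rep0, E0), subset_rfl, hE0⟩
  simp only at hRep hRf hmin
  obtain ⟨s, hb⟩ := exists_best mem (adjE adj harm E) Rep hRf
  have hok := hb.feas.1
  refine ⟨Rep, adjE adj harm E, s, cls mem (adjE adj harm E) Rep s, Dst mem (adjE adj harm E) Rep s,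
    hRep, fun k q hq => (mem_adjE.1 hq).1, fun k q hq hn => mem_adjE.2 ⟨hq, Or.inl hn⟩, ?_, hok.inj,
    ?_, ?_, ?_, ?_, ?_, ?_⟩
  · exact fun k hk => ⟨hok.av k hk, hok.own k hk, hok.pl k hk⟩
  · intro z hz
    refine ⟨?_, cls_le ReflTransGen.refl, ?_⟩
    · obtain ⟨y, h1, h2⟩ := exists_cls mem (adjE adj harm E) Rep s z
      rw [← h2]
      exact hb.feas.2 y (reach_notRep hok hz h1)
    · obtain ⟨y, h1, h2⟩ := exists_cls mem (adjE adj harm E) Rep s z
      rw [← h2]
      exact hb.reach h1
  · intro k hk z hz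
    have h1 : ReflTransGen (Step mem (adjE adj harm E) (AvR mem Rep) s) (s.own k) z :=
      ReflTransGen.single ⟨k, hk, rfl, Or.inl hz⟩
    exact ⟨cls_mono h1, Dst.back h1⟩
  · intro k0 hk0 hav hne q hq
    by_cases hfree : ∀ k ∈ s.B, s.pl k ≠ q
    · exfalso
      obtain ⟨b, hbm⟩ := hne
      have h1 : Ok mem (adjE adj harm E) (AvR mem Rep) (add s k0 b q) :=
        hok.add hk0 (fun _ h => h) hav hq hfree hbm
      have h2 := hb.card (add s k0 b q) ⟨h1, fun z hz => by
        rw [ld_add s hk0]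
        have := hb.feas.2 z hz
        omega⟩
      have h3 : (add s k0 b q).B.card = s.B.card + 1 := Finset.card_insert_of_notMem hk0
      omega
    · push Not at hfree
      obtain ⟨k, hk, hkq⟩ := hfree
      refine ⟨k, hk, hkq, fun z hz => ?_⟩
      have h1 : ReflTransGen (Step mem (adjE adj harm E) (AvR mem Rep) s) (s.own k) z :=
        ReflTransGen.single ⟨k, hk, rfl, Or.inr ⟨k0, hk0, hav, by rw [hkq]; exact hq, hz⟩⟩
      exact ⟨cls_mono h1, Dst.back h1⟩
  · intro z hz
    exact hz z ReflTransGen.refl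
  · intro r hr k0 hrk hk0R q hq
    have hk0 : k0 ∉ s.B := fun h => hok.av k0 h r hrk hr
    have hsub : ∀ k, AvR mem Rep k → AvR mem (Rep.erase r) k := fun k h z hz hz' =>
      h z hz (Finset.mem_of_mem_erase hz')
    have hk0av : AvR mem (Rep.erase r) k0 := fun z hz hz' =>
      Finset.ne_of_mem_erase hz' (hk0R z hz (Finset.mem_of_mem_erase hz'))
    have hno : ¬ ∃ t : St X K Q, Feas mem (adjE adj harm E) (Rep.erase r) t := by
      intro ht
      have h1 := hmin (Rep.erase r, E) ⟨(Finset.erase_subset _ _).trans hRep, ht⟩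
      simp only at h1
      rw [Finset.card_erase_of_mem hr] at h1
      have : 0 < Rep.card := Finset.card_pos.2 ⟨r, hr⟩
      omega
    by_cases hfree : ∀ k ∈ s.B, s.pl k ≠ q
    · exfalso
      refine hno ⟨add s k0 r q, hok.add hk0 hsub hk0av hq hfree hrk, fun z hz => ?_⟩
      rw [ld_add s hk0]
      by_cases e : z = r
      · rw [if_pos e]; omega
      · have := hb.feas.2 z (fun h => hz (Finset.mem_erase.2 ⟨e, h⟩))
        omega
    · push Not at hfree
      obtain ⟨k, hk, hkq⟩ := hfree
      refine ⟨k, hk, hkq, ?_⟩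
      by_contra hD
      unfold Dst at hD
      push Not at hD
      obtain ⟨w, hw, hlw⟩ := hD
      have hyR : s.own k ∉ Rep := hok.av k hk _ (hok.own k hk)
      have hwR : w ∉ Rep := reach_notRep' hok hyR hw
      have hw2 : 2 ≤ ld s w := by
        have := hb.feas.2 w hwR
        omega
      obtain ⟨s', g1, g2, g3, g4⟩ := hb.feas.shift hw hw2
      obtain ⟨e1, e2, e3⟩ := g3 k hk rfl
      have hk0' : k0 ∉ s'.B := fun h => g1.1.av k0 h r hrk hr
      refine hno ⟨swap s' k k0 r, (g1.1.mono hsub).swap e1 hk0' hk0av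
        (by rw [e3, hkq]; exact hq) hrk, fun z hz => ?_⟩
      have f1 := ld_swap s' e1 hk0' r z
      have f2 := g4 z
      by_cases e : z = r
      · subst e
        have f3 : z ≠ s'.own k := fun h => hyR (by rw [← e2, ← h]; exact hr)
        rw [if_neg f3, if_pos rfl] at f1
        omega
      · have hzR : z ∉ Rep := fun h => hz (Finset.mem_erase.2 ⟨e, h⟩)
        have f3 := hb.feas.2 z hzR
        rw [if_neg e, e2] at f1
        by_cases e4 : z = s.own k
        · rw [if_pos e4] at f1 f2
          by_cases e5 : z = w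
          · rw [if_pos e5] at f2
            rw [← e5] at hw2
            omega
          · rw [if_neg e5] at f2
            omega
        · rw [if_neg e4] at f1 f2
          by_cases e5 : z = w
          · rw [if_pos e5] at f2
            rw [← e5] at hw2
            omega
          · rw [if_neg e5] at f2
            omega
  · intro k hk hh
    by_contra hD
    unfold Dst at hD
    push Not at hD
    obtain ⟨w, hw, hlw⟩ := hD
    have hyR : s.own k ∉ Rep := hok.av k hk _ (hok.own k hk)
    have hwR : w ∉ Rep := reach_notRep' hok hyR hw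
    have hw2 : 2 ≤ ld s w := by
      have := hb.feas.2 w hwR
      omega
    obtain ⟨s', g1, g2, g3, g4⟩ := hb.feas.shift hw hw2
    obtain ⟨e1, e2, e3⟩ := g3 k hk rfl
    have hE : (k, s.pl k) ∈ E := by
      rcases (mem_adjE.1 (hok.pl k hk)).2 with h | h
      · exact absurd hh h
      · exact h
    have hno : ¬ ∃ t : St X K Q, Feas mem (adjE adj harm (E.erase (k, s.pl k))) Rep t := by
      intro ht
      have h1 := hmin (Rep, E.erase (k, s.pl k)) ⟨hRep, ht⟩
      simp only at h1
      rw [Finset.card_erase_of_mem hE] at h1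
      have : 0 < E.card := Finset.card_pos.2 ⟨_, hE⟩
      omega
    refine hno ⟨drop s' k, ⟨?_, ?_, ?_, ?_⟩, fun z hz => ?_⟩
    · exact fun k' hk' => g1.1.av k' (Finset.mem_of_mem_erase hk')
    · exact fun k' hk' => g1.1.own k' (Finset.mem_of_mem_erase hk')
    · intro k' hk'
      have f1 := g1.1.pl k' (Finset.mem_of_mem_erase hk')
      rw [mem_adjE] at f1
      show s'.pl k' ∈ adjE adj harm (E.erase (k, s.pl k)) k'
      rw [mem_adjE]
      refine ⟨f1.1, ?_⟩
      rcases f1.2 with h | h
      · exact Or.inl h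
      · refine Or.inr (Finset.mem_erase.2 ⟨fun e => ?_, h⟩)
        exact Finset.ne_of_mem_erase hk' (Prod.ext_iff.1 e).1
    · exact fun k1 h1 k2 h2 e => g1.1.inj k1 (Finset.mem_of_mem_erase h1) k2
        (Finset.mem_of_mem_erase h2) e
    · have f1 := ld_drop s' e1 z
      have f2 := g4 z
      have f3 := hb.feas.2 z hz
      rw [e2] at f1
      by_cases e4 : z = s.own k
      · rw [if_pos e4] at f1 f2
        by_cases e5 : z = w
        · rw [if_pos e5] at f2
          rw [← e5] at hw2
          omega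
        · rw [if_neg e5] at f2
          omega
      · rw [if_neg e4] at f1 f2
        by_cases e5 : z = w
        · rw [if_pos e5] at f2
          rw [← e5] at hw2
          omega
        · rw [if_neg e5] at f2
          omega

end Pool.Agent.Alloc85
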