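import Pool.Agent.Helper85.Alloc85

set_option linter.all false

/-!
# MP_47cd0b (room C): allocation of rows with planes, finer classes and switches

`cl z` = the least load reached from `z`, `tp z` = the largest load of a point which reaches `z`;
`cl z ≤ ld z ≤ tp z ≤ cl z + 1`. A row `k` in the plane `q` has a switch `sw k q`; different planes
have different switches (e.g. `sw k q = q`, or `sw k q = (k, q)`). The harmful switches are turned off
one by one as long as this is possible.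
-/

namespace Pool.Agent.Alloc85

open Relation Finset

variable {X K Q W : Type*} [Fintype X] [DecidableEq X] [Fintype K] [DecidableEq K]
  [DecidableEq Q] [DecidableEq W]

/-- the largest load of a point which reaches `z` -/
noncomputable def tp (mem : K → Finset X) (adj : K → Finset Q) (Rep : Finset X) (s : St X K Q)
    (z : X) : ℕ := by
  classical
  exact (univ.filter fun w => ReflTransGen (Step mem adj (AvR mem Rep) s) w z).sup (ld s)

section

variable {mem : K → Finset X} {adj : K → Finset Q} {Rep : Finset X} {s : St X K Q}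

theorem le_tp {w z : X} (h : ReflTransGen (Step mem adj (AvR mem Rep) s) w z) :
    ld s w ≤ tp mem adj Rep s z := by
  classical
  unfold tp
  exact Finset.le_sup (f := ld s) (by simpa using h)

theorem tp_le {z : X} {n : ℕ}
    (h : ∀ w, ReflTransGen (Step mem adj (AvR mem Rep) s) w z → ld s w ≤ n) :
    tp mem adj Rep s z ≤ n := by
  classical
  unfold tp
  exact Finset.sup_le fun w hw => h w (by simpa using hw)

theorem tp_mono {z z' : X} (h : ReflTransGen (Step mem adj (AvR mem Rep) s) z z') :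
    tp mem adj Rep s z ≤ tp mem adj Rep s z' :=
  tp_le fun w hw => le_tp (hw.trans h)

/-- if `tp z` is at least two then somebody with two rows reaches `z` -/
theorem exists_two {z : X} (h : ¬ tp mem adj Rep s z ≤ 1) :
    ∃ w, ReflTransGen (Step mem adj (AvR mem Rep) s) w z ∧ 2 ≤ ld s w := by
  by_contra hcon
  push Not at hcon
  exact h (tp_le fun w hw => by have := hcon w hw; omega)

end

/-- the planes of `k` with the harmful ones whose switch is off left out -/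
noncomputable def adjW (adj : K → Finset Q) (sw : K → Q → W) (harm : W → Prop) (E : Finset W)
    (k : K) : Finset Q := by
  classical
  exact (adj k).filter fun q => ¬ harm (sw k q) ∨ sw k q ∈ E

theorem mem_adjW {adj : K → Finset Q} {sw : K → Q → W} {harm : W → Prop} {E : Finset W} {k : K}
    {q : Q} : q ∈ adjW adj sw harm E k ↔ q ∈ adj k ∧ (¬ harm (sw k q) ∨ sw k q ∈ E) := by
  classical
  unfold adjW
  rw [Finset.mem_filter]

/-- **Allocation with harmful switches** -/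
theorem alloc85w (mem : K → Finset X) (adj : K → Finset Q) (sw : K → Q → W) (harm : W → Prop)
    (hsw : ∀ k q k' q', sw k q = sw k' q' → q = q')
    (Rep0 : Finset X) (h0 : ∃ s, Feas mem adj Rep0 s) :
    ∃ (Rep : Finset X) (E : Finset W) (s : St X K Q) (cl tp : X → ℕ),
      Rep ⊆ Rep0 ∧
      (∀ k ∈ s.B, (∀ z ∈ mem k, z ∉ Rep) ∧ s.own k ∈ mem k ∧ s.pl k ∈ adj k ∧
        (harm (sw k (s.pl k)) → sw k (s.pl k) ∈ E)) ∧
      (∀ k ∈ s.B, ∀ k' ∈ s.B, s.pl k = s.pl k' → k = k') ∧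
      (∀ z, z ∉ Rep → 1 ≤ cl z ∧ cl z ≤ ld s z ∧ ld s z ≤ tp z ∧ tp z ≤ cl z + 1) ∧
      (∀ k ∈ s.B, ∀ z ∈ mem k, cl (s.own k) ≤ cl z ∧ tp (s.own k) ≤ tp z) ∧
      (∀ k0, k0 ∉ s.B → (∀ z ∈ mem k0, z ∉ Rep) → (mem k0).Nonempty → ∀ q ∈ adj k0,
        (harm (sw k0 q) → sw k0 q ∈ E) →
        ∃ k ∈ s.B, s.pl k = q ∧ ∀ z ∈ mem k0, cl (s.own k) ≤ cl z ∧ tp (s.own k) ≤ tp z) ∧
      (∀ r ∈ Rep, ∀ k0, r ∈ mem k0 → (∀ z ∈ mem k0, z ∈ Rep → z = r) → ∀ q ∈ adj k0,
        (harm (sw k0 q) → sw k0 q ∈ E) →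
        ∃ k ∈ s.B, s.pl k = q ∧ tp (s.own k) ≤ 1) ∧
      (∀ k ∈ s.B, harm (sw k (s.pl k)) → tp (s.own k) ≤ 1) := by
  classical
  -- the harmful edges which are used by the given state suffice
  have hstart : ∃ E : Finset W, ∃ s : St X K Q, Feas mem (adjW adj sw harm E) Rep0 s := by
    obtain ⟨s, hs⟩ := h0
    refine ⟨s.B.image fun k => sw k (s.pl k), s, ⟨hs.1.av, hs.1.own, fun k hk => ?_, hs.1.inj⟩,
      hs.2⟩
    rw [mem_adjW]
    exact ⟨hs.1.pl k hk, Or.inr (Finset.mem_image.2 ⟨k, hk, rfl⟩)⟩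
  obtain ⟨E0, hE0⟩ := hstart
  obtain ⟨⟨Rep, E⟩, ⟨hRep, hRf⟩, hmin⟩ := exists_min
    (fun p : Finset X × Finset W => p.1 ⊆ Rep0 ∧
      ∃ s : St X K Q, Feas mem (adjW adj sw harm p.2) p.1 s) (fun p => p.1.card + p.2.card)
    ⟨(Rep0, E0), subset_rfl, hE0⟩
  simp only at hRep hRf hmin
  obtain ⟨s, hb⟩ := exists_best mem (adjW adj sw harm E) Rep hRf
  have hok := hb.feas.1
  have himp : ∀ k q, q ∈ adjW adj sw harm E k ↔ q ∈ adj k ∧ (harm (sw k q) → sw k q ∈ E) := by
    intro k q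
    rw [mem_adjW]
    tauto
  refine ⟨Rep, E, s, cls mem (adjW adj sw harm E) Rep s,
    tp mem (adjW adj sw harm E) Rep s, hRep, ?_, hok.inj, ?_, ?_, ?_, ?_, ?_⟩
  · exact fun k hk => ⟨hok.av k hk, hok.own k hk, (himp k _).1 (hok.pl k hk)⟩
  · intro z hz
    refine ⟨?_, cls_le ReflTransGen.refl, le_tp ReflTransGen.refl, ?_⟩
    · obtain ⟨y, h1, h2⟩ := exists_cls mem (adjW adj sw harm E) Rep s z
      rw [← h2]
      exact hb.feas.2 y (reach_notRep hok hz h1)
    · obtain ⟨y, h1, h2⟩ := exists_cls mem (adjW adj sw harm E) Rep s z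
      rw [← h2]
      exact tp_le fun w hw => hb.reach (hw.trans h1)
  · intro k hk z hz
    have h1 : ReflTransGen (Step mem (adjW adj sw harm E) (AvR mem Rep) s) (s.own k) z :=
      ReflTransGen.single ⟨k, hk, rfl, Or.inl hz⟩
    exact ⟨cls_mono h1, tp_mono h1⟩
  · intro k0 hk0 hav hne q hq0 hqE
    have hq := (himp k0 q).2 ⟨hq0, hqE⟩
    by_cases hfree : ∀ k ∈ s.B, s.pl k ≠ q
    · exfalso
      obtain ⟨b, hbm⟩ := hne
      have h1 : Ok mem (adjW adj sw harm E) (AvR mem Rep) (add s k0 b q) :=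
        hok.add hk0 (fun _ h => h) hav hq hfree hbm
      have h2 := hb.card (add s k0 b q) ⟨h1, fun z hz => by
        rw [ld_add s hk0]
        have := hb.feas.2 z hz
        omega⟩
      have h3 : (add s k0 b q).B.card = s.B.card + 1 := Finset.card_insert_of_notMem hk0
      omega
    · push Not at hfree
      obtain ⟨k, hk, hkq⟩ := hfree
      refine ⟨k, hk, hkq, fun z hz => ?_⟩
      have h1 : ReflTransGen (Step mem (adjW adj sw harm E) (AvR mem Rep) s) (s.own k) z :=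
        ReflTransGen.single ⟨k, hk, rfl, Or.inr ⟨k0, hk0, hav, by rw [hkq]; exact hq, hz⟩⟩
      exact ⟨cls_mono h1, tp_mono h1⟩
  · intro r hr k0 hrk hk0R q hq0 hqE
    have hq := (himp k0 q).2 ⟨hq0, hqE⟩
    have hk0 : k0 ∉ s.B := fun h => hok.av k0 h r hrk hr
    have hsub : ∀ k, AvR mem Rep k → AvR mem (Rep.erase r) k := fun k h z hz hz' =>
      h z hz (Finset.mem_of_mem_erase hz')
    have hk0av : AvR mem (Rep.erase r) k0 := fun z hz hz' =>
      Finset.ne_of_mem_erase hz' (hk0R z hz (Finset.mem_of_mem_erase hz'))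
    have hno : ¬ ∃ t : St X K Q, Feas mem (adjW adj sw harm E) (Rep.erase r) t := by
      intro ht
      have h1 := hmin (Rep.erase r, E) ⟨(Finset.erase_subset _ _).trans hRep, ht⟩
      simp only at h1
      rw [Finset.card_erase_of_mem hr] at h1
      have : 0 < Rep.card := Finset.card_pos.2 ⟨r, hr⟩
      omega
    by_cases hfree : ∀ k ∈ s.B, s.pl k ≠ q
    · exfalso
      refine hno ⟨add s k0 r q, hok.add hk0 hsub hk0av hq hfree hrk, fun z hz => ?_⟩
      rw [ld_add s hk0]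
      by_cases e : z = r
      · rw [if_pos e]; omega
      · have := hb.feas.2 z (fun h => hz (Finset.mem_erase.2 ⟨e, h⟩))
        omega
    · push Not at hfree
      obtain ⟨k, hk, hkq⟩ := hfree
      refine ⟨k, hk, hkq, ?_⟩
      by_contra hD
      obtain ⟨w, hw, hw2⟩ := exists_two hD
      have hyR : s.own k ∉ Rep := hok.av k hk _ (hok.own k hk)
      have hwR : w ∉ Rep := reach_notRep' hok hyR hw
      obtain ⟨s', g1, g2, g3, g4⟩ := hb.feas.shift hw hw2
      obtain ⟨e1, e2, e3⟩ := g3 k hk rfl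
      have hk0' : k0 ∉ s'.B := fun h => g1.1.av k0 h r hrk hr
      refine hno ⟨swap s' k k0 r, (g1.1.mono hsub).swap e1 hk0' hk0av
        (by rw [e3, hkq]; exact hq) hrk, fun z hz => ?_⟩
      have f1 := ld_swap s' e1 hk0' r z
      have f2 := g4 z
      by_cases e : z = r
      · subst e
        have f3 : z ≠ s'.own k := fun h => hyR (by rw [← e2, ← h]; exact hr)
        rw [if_neg f3, if_pos rfl] at f1
        omega
      · have hzR : z ∉ Rep := fun h => hz (Finset.mem_erase.2 ⟨e, h⟩)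
        have f3 := hb.feas.2 z hzR
        rw [if_neg e, e2] at f1
        by_cases e4 : z = s.own k
        · rw [if_pos e4] at f1 f2
          by_cases e5 : z = w
          · rw [if_pos e5] at f2
            rw [← e5] at hw2
            omega
          · rw [if_neg e5] at f2
            omega
        · rw [if_neg e4] at f1 f2
          by_cases e5 : z = w
          · rw [if_pos e5] at f2
            rw [← e5] at hw2
            omega
          · rw [if_neg e5] at f2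
            omega
  · intro k hk hh
    by_contra hD
    obtain ⟨w, hw, hw2⟩ := exists_two hD
    have hyR : s.own k ∉ Rep := hok.av k hk _ (hok.own k hk)
    have hwR : w ∉ Rep := reach_notRep' hok hyR hw
    obtain ⟨s', g1, g2, g3, g4⟩ := hb.feas.shift hw hw2
    obtain ⟨e1, e2, e3⟩ := g3 k hk rfl
    have hE : (sw k (s.pl k)) ∈ E := by
      rcases (mem_adjW.1 (hok.pl k hk)).2 with h | h
      · exact absurd hh h
      · exact h
    have hno : ¬ ∃ t : St X K Q, Feas mem (adjW adj sw harm (E.erase (sw k (s.pl k)))) Rep t := by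
      intro ht
      have h1 := hmin (Rep, E.erase (sw k (s.pl k))) ⟨hRep, ht⟩
      simp only at h1
      rw [Finset.card_erase_of_mem hE] at h1
      have : 0 < E.card := Finset.card_pos.2 ⟨_, hE⟩
      omega
    refine hno ⟨drop s' k, ⟨?_, ?_, ?_, ?_⟩, fun z hz => ?_⟩
    · exact fun k' hk' => g1.1.av k' (Finset.mem_of_mem_erase hk')
    · exact fun k' hk' => g1.1.own k' (Finset.mem_of_mem_erase hk')
    · intro k' hk'
      have f1 := g1.1.pl k' (Finset.mem_of_mem_erase hk')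
      rw [mem_adjW] at f1
      show s'.pl k' ∈ adjW adj sw harm (E.erase (sw k (s.pl k))) k'
      rw [mem_adjW]
      refine ⟨f1.1, ?_⟩
      rcases f1.2 with h | h
      · exact Or.inl h
      · refine Or.inr (Finset.mem_erase.2 ⟨fun e => ?_, h⟩)
        have e5 : s'.pl k' = s'.pl k := by rw [e3]; exact hsw _ _ _ _ e
        exact Finset.ne_of_mem_erase hk' (g1.1.inj k' (Finset.mem_of_mem_erase hk') k e1 e5)
    · exact fun k1 h1 k2 h2 e => g1.1.inj k1 (Finset.mem_of_mem_erase h1) k2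
        (Finset.mem_of_mem_erase h2) e
    · have f1 := ld_drop s' e1 z
      have f2 := g4 z
      have f3 := hb.feas.2 z hz
      rw [e2] at f1
      by_cases e4 : z = s.own k
      · rw [if_pos e4] at f1 f2
        by_cases e5 : z = w
        · rw [if_pos e5] at f2
          rw [← e5] at hw2
          omega
        · rw [if_neg e5] at f2
          omega
      · rw [if_neg e4] at f1 f2
        by_cases e5 : z = w
        · rw [if_pos e5] at f2
          rw [← e5] at hw2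
          omega
        · rw [if_neg e5] at f2
          omega

/-- **Allocation with harmful planes**: the finer classes `cl`, `tp`; harmful planes which are still
used are used by points `x` with `tp x ≤ 1` -/
theorem alloc85p (mem : K → Finset X) (adj : K → Finset Q) (harm : Q → Prop)
    (Rep0 : Finset X) (h0 : ∃ s, Feas mem adj Rep0 s) :
    ∃ (Rep : Finset X) (E : Finset Q) (s : St X K Q) (cl tp : X → ℕ),
      Rep ⊆ Rep0 ∧
      (∀ k ∈ s.B, (∀ z ∈ mem k, z ∉ Rep) ∧ s.own k ∈ mem k ∧ s.pl k ∈ adj k ∧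
        (harm (s.pl k) → s.pl k ∈ E)) ∧
      (∀ k ∈ s.B, ∀ k' ∈ s.B, s.pl k = s.pl k' → k = k') ∧
      (∀ z, z ∉ Rep → 1 ≤ cl z ∧ cl z ≤ ld s z ∧ ld s z ≤ tp z ∧ tp z ≤ cl z + 1) ∧
      (∀ k ∈ s.B, ∀ z ∈ mem k, cl (s.own k) ≤ cl z ∧ tp (s.own k) ≤ tp z) ∧
      (∀ k0, k0 ∉ s.B → (∀ z ∈ mem k0, z ∉ Rep) → (mem k0).Nonempty → ∀ q ∈ adj k0,
        (harm q → q ∈ E) →
        ∃ k ∈ s.B, s.pl k = q ∧ ∀ z ∈ mem k0, cl (s.own k) ≤ cl z ∧ tp (s.own k) ≤ tp z) ∧
      (∀ r ∈ Rep, ∀ k0, r ∈ mem k0 → (∀ z ∈ mem k0, z ∈ Rep → z = r) → ∀ q ∈ adj k0,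
        (harm q → q ∈ E) → ∃ k ∈ s.B, s.pl k = q ∧ tp (s.own k) ≤ 1) ∧
      (∀ k ∈ s.B, harm (s.pl k) → tp (s.own k) ≤ 1) :=
  alloc85w mem adj (fun _ q => q) harm (fun _ _ _ _ h => h) Rep0 h0

/-- a used plane is never seen by a planeless row from below: the version of the fourth output of
`alloc85p` for the owner of a used plane -/
theorem alloc85p' (mem : K → Finset X) (adj : K → Finset Q) (harm : Q → Prop)
    (Rep0 : Finset X) (h0 : ∃ s, Feas mem adj Rep0 s) :
    ∃ (Rep : Finset X) (s : St X K Q) (cl tp : X → ℕ),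
      Rep ⊆ Rep0 ∧
      (∀ k ∈ s.B, (∀ z ∈ mem k, z ∉ Rep) ∧ s.own k ∈ mem k ∧ s.pl k ∈ adj k) ∧
      (∀ k ∈ s.B, ∀ k' ∈ s.B, s.pl k = s.pl k' → k = k') ∧
      (∀ z, z ∉ Rep → 1 ≤ cl z ∧ cl z ≤ ld s z ∧ ld s z ≤ tp z ∧ tp z ≤ cl z + 1) ∧
      (∀ k ∈ s.B, ∀ z ∈ mem k, cl (s.own k) ≤ cl z ∧ tp (s.own k) ≤ tp z) ∧
      (∀ k ∈ s.B, ∀ k0, k0 ∉ s.B → (∀ z ∈ mem k0, z ∉ Rep) → s.pl k ∈ adj k0 →
        ∀ z ∈ mem k0, cl (s.own k) ≤ cl z ∧ tp (s.own k) ≤ tp z) ∧
      (∀ k ∈ s.B, ∀ r ∈ Rep, ∀ k0, r ∈ mem k0 → (∀ z ∈ mem k0, z ∈ Rep → z = r) →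
        s.pl k ∈ adj k0 → tp (s.own k) ≤ 1) ∧
      (∀ k ∈ s.B, harm (s.pl k) → tp (s.own k) ≤ 1) ∧
      (∀ k0, k0 ∉ s.B → (∀ z ∈ mem k0, z ∉ Rep) → (mem k0).Nonempty → ∀ q ∈ adj k0, ¬ harm q →
        ∃ k ∈ s.B, s.pl k = q) ∧
      (∀ r ∈ Rep, ∀ k0, r ∈ mem k0 → (∀ z ∈ mem k0, z ∈ Rep → z = r) → ∀ q ∈ adj k0,
        ¬ harm q → ∃ k ∈ s.B, s.pl k = q) := by
  obtain ⟨Rep, E, s, cl, tp, h1, h2, h3, h4, h5, h6, h7, h8⟩ := alloc85p mem adj harm Rep0 h0
  refine ⟨Rep, s, cl, tp, h1, fun k hk => ⟨(h2 k hk).1, (h2 k hk).2.1, (h2 k hk).2.2.1⟩, h3, h4,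
    h5, ?_, ?_, h8, ?_, ?_⟩
  · intro k hk k0 hk0 hav hq z hz
    obtain ⟨k', hk', e, hh⟩ := h6 k0 hk0 hav ⟨z, hz⟩ _ hq (h2 k hk).2.2.2
    rw [← h3 k' hk' k hk e]
    exact hh z hz
  · intro k hk r hr k0 hrk hu hq
    obtain ⟨k', hk', e, hh⟩ := h7 r hr k0 hrk hu _ hq (h2 k hk).2.2.2
    rw [← h3 k' hk' k hk e]
    exact hh
  · intro k0 hk0 hav hne q hq hn
    obtain ⟨k, hk, e, -⟩ := h6 k0 hk0 hav hne q hq (fun h => absurd h hn)
    exact ⟨k, hk, e⟩
  · intro r hr k0 hrk hu q hq hn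
    obtain ⟨k, hk, e, -⟩ := h7 r hr k0 hrk hu q hq (fun h => absurd h hn)
    exact ⟨k, hk, e⟩

end Pool.Agent.Alloc85
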