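import Pool.Agent.Helper85.Alloc85b

set_option linter.all false

/-!
# MP_47cd0b (room C): allocation, the preorder version with helper49's cycle exchange
-/

namespace Pool.Agent.Alloc85

open Relation Finset

variable {X K Q W : Type*} [Fintype X] [DecidableEq X] [Fintype K] [DecidableEq K]
  [DecidableEq Q] [DecidableEq W]

section

variable {mem : K → Finset X} {adj : K → Finset Q} {Av : K → Prop} {s : St X K Q}

/-- shifting one unit along a path with given rows, more information -/
theorem shift_path' (h : Ok mem adj Av s) (p : ℕ → X) (kk ka : ℕ → K) (ty : ℕ → Prop) (n : ℕ)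
    (h1 : ∀ i < n, kk i ∈ s.B ∧ s.own (kk i) = p i)
    (h2 : ∀ i < n, (ty i ∧ p (i + 1) ∈ mem (kk i)) ∨
      (¬ ty i ∧ ka i ∉ s.B ∧ Av (ka i) ∧ s.pl (kk i) ∈ adj (ka i) ∧ p (i + 1) ∈ mem (ka i)))
    (h3 : ∀ i j, i < j → j < n → p i ≠ p j)
    (h4 : ∀ i j, i < j → j < n → ¬ ty i → ¬ ty j → ka i ≠ ka j) :
    ∃ s' : St X K Q, Ok mem adj Av s' ∧ s'.B.card = s.B.card ∧
      (∀ k ∈ s.B, (∀ i < n, k ≠ kk i) → k ∈ s'.B ∧ s'.own k = s.own k ∧ s'.pl k = s.pl k) ∧
      (∀ k ∈ s'.B, k ∉ s.B → ∃ i < n, ¬ ty i ∧ k = ka i) ∧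
      (∀ i < n, ¬ ty i → kk i ∉ s'.B ∧ ka i ∈ s'.B ∧ s'.pl (ka i) = s.pl (kk i)) ∧
      ∀ y, ld s' y + (if y = p 0 then 1 else 0) = ld s y + (if y = p n then 1 else 0) := by
  induction n with
  | zero => exact ⟨s, h, rfl, fun k hk _ => ⟨hk, rfl, rfl⟩, fun k hk hk' => absurd hk hk',
      fun i hi => absurd hi (by omega), fun y => rfl⟩
  | succ n ih =>
    obtain ⟨o, ho, hc, hkeep, hnew, hout, hl⟩ := ih (fun i hi => h1 i (by omega))
      (fun i hi => h2 i (by omega)) (fun i j hij hj => h3 i j hij (by omega))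
      (fun i j hij hj => h4 i j hij (by omega))
    obtain ⟨hkB, hko⟩ := h1 n (by omega)
    have hkne : ∀ i < n, kk n ≠ kk i := by
      intro i hi e
      refine h3 i n hi (by omega) ?_
      rw [← (h1 i (by omega)).2, ← e, hko]
    obtain ⟨hk1, hk2, hk3⟩ := hkeep (kk n) hkB hkne
    have hok : o.own (kk n) = p n := by rw [hk2, hko]
    rcases h2 n (by omega) with ⟨hty, hm⟩ | ⟨hty, hka, hav, hpl, hm⟩
    · refine ⟨reown o (kk n) (p (n + 1)), ho.reown hk1 hm, hc, ?_, ?_, ?_, ?_⟩
      · intro k hk hne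
        obtain ⟨e1, e2, e3⟩ := hkeep k hk (fun i hi => hne i (by omega))
        refine ⟨e1, ?_, e3⟩
        show Function.update o.own (kk n) (p (n + 1)) k = _
        rw [Function.update_of_ne (hne n (by omega)), e2]
      · intro k hk hk'
        obtain ⟨i, hi, e1, e2⟩ := hnew k hk hk'
        exact ⟨i, by omega, e1, e2⟩
      · intro i hi hti
        have hi' : i < n := by
          rcases Nat.lt_or_ge i n with e | e
          · exact e
          · exfalso
            have : i = n := by omega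
            subst this
            exact hti hty
        exact hout i hi' hti
      · intro y
        have e1 := ld_reown o hk1 (p (n + 1)) y
        have e2 := hl y
        rw [hok] at e1
        omega
    · have hkaB : ka n ∉ o.B := by
        intro hcon
        obtain ⟨i, hi, e1, e2⟩ := hnew (ka n) hcon hka
        exact h4 i n hi (by omega) e1 hty e2.symm
      refine ⟨swap o (kk n) (ka n) (p (n + 1)), ho.swap hk1 hkaB hav (by rw [hk3]; exact hpl) hm,
        ?_, ?_, ?_, ?_, ?_⟩
      · show (insert (ka n) (o.B.erase (kk n))).card = _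
        rw [Finset.card_insert_of_notMem (fun e => hkaB (Finset.mem_of_mem_erase e)),
          Finset.card_erase_of_mem hk1, ← hc]
        have : 0 < o.B.card := Finset.card_pos.2 ⟨_, hk1⟩
        omega
      · intro k hk hne
        obtain ⟨e1, e2, e3⟩ := hkeep k hk (fun i hi => hne i (by omega))
        have e5 : k ≠ ka n := neOf hk hka
        refine ⟨Finset.mem_insert_of_mem (Finset.mem_erase.2 ⟨hne n (by omega), e1⟩), ?_, ?_⟩
        · show Function.update o.own (ka n) (p (n + 1)) k = _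
          rw [Function.update_of_ne e5, e2]
        · show Function.update o.pl (ka n) (o.pl (kk n)) k = _
          rw [Function.update_of_ne e5, e3]
      · intro k hk hk'
        rcases Finset.mem_insert.1 hk with rfl | e0
        · exact ⟨n, by omega, hty, rfl⟩
        · obtain ⟨i, hi, e1, e2⟩ := hnew k (Finset.mem_of_mem_erase e0) hk'
          exact ⟨i, by omega, e1, e2⟩
      · intro i hi hti
        rcases Nat.lt_or_ge i n with e | e
        · obtain ⟨f1, f2, f3⟩ := hout i e hti
          have f4 : ka i ≠ kk n := by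
            intro f
            rcases h2 i (by omega) with g | g
            · exact hti g.1
            · exact g.2.1 (by rw [f]; exact hkB)
          have f5 : ka i ≠ ka n := h4 i n e (by omega) hti hty
          refine ⟨?_, Finset.mem_insert_of_mem (Finset.mem_erase.2 ⟨f4, f2⟩), ?_⟩
          · intro f
            rcases Finset.mem_insert.1 f with f6 | f6
            · exact hka (by rw [← f6]; exact (h1 i (by omega)).1)
            · exact f1 (Finset.mem_of_mem_erase f6)
          · show Function.update o.pl (ka n) (o.pl (kk n)) (ka i) = _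
            rw [Function.update_of_ne f5, f3]
        · have : i = n := by omega
          subst this
          refine ⟨?_, Finset.mem_insert_self _ _, ?_⟩
          · intro f
            rcases Finset.mem_insert.1 f with f6 | f6
            · exact hka (by rw [← f6]; exact hkB)
            · exact Finset.ne_of_mem_erase f6 rfl
          · show Function.update o.pl (ka i) (o.pl (kk i)) (ka i) = _
            rw [Function.update_self, hk3]
      · intro y
        have e1 := ld_swap o hk1 hkaB (p (n + 1)) y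
        have e2 := hl y
        rw [hok] at e1
        omega

/-- a shortest path from a set to a point -/
theorem exists_path' {R : X → X → Prop} (P : X → Prop) {z' : X}
    (h : ∃ z, P z ∧ ReflTransGen R z z') :
    ∃ (n : ℕ) (p : ℕ → X), P (p 0) ∧ p n = z' ∧ (∀ i < n, R (p i) (p (i + 1))) ∧
      (∀ i j, i < j → j < n → ¬ R (p i) (p (j + 1))) ∧ (∀ i j, i < j → j ≤ n → p i ≠ p j) ∧
      ∀ i, 0 < i → i ≤ n → ¬ P (p i) := by
  classical
  have hex : ∃ n : ℕ, ∃ p : ℕ → X, P (p 0) ∧ p n = z' ∧ ∀ i < n, R (p i) (p (i + 1)) := by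
    obtain ⟨z, hz, hr⟩ := h
    obtain ⟨n, p, h0, hn, hs, -, -⟩ := exists_path hr
    exact ⟨n, p, by rw [h0]; exact hz, hn, hs⟩
  obtain ⟨p, h0, hn, hs⟩ := Nat.find_spec hex
  have hcut : ∀ i j, i < j → j < Nat.find hex → ¬ R (p i) (p (j + 1)) := by
    intro i j hij hj hR
    have hlt : Nat.find hex - (j - i) < Nat.find hex := by omega
    refine Nat.find_min hex hlt ⟨fun t => if t ≤ i then p t else p (t + (j - i)), ?_, ?_, ?_⟩
    · simpa using h0
    · simp only
      rw [if_neg (by omega), Nat.sub_add_cancel (by omega), hn]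
    · intro t ht
      show R (if t ≤ i then p t else p (t + (j - i)))
        (if t + 1 ≤ i then p (t + 1) else p (t + 1 + (j - i)))
      by_cases h1 : t + 1 ≤ i
      · rw [if_pos (by omega), if_pos h1]
        exact hs t (by omega)
      · by_cases h2 : t ≤ i
        · have h3 : t = i := by omega
          subst h3
          rw [if_pos le_rfl, if_neg h1, show t + 1 + (j - t) = j + 1 by omega]
          exact hR
        · rw [if_neg h2, if_neg h1]
          have h4 := hs (t + (j - i)) (by omega)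
          rwa [show t + 1 + (j - i) = t + (j - i) + 1 by omega]
  refine ⟨Nat.find hex, p, h0, hn, hs, hcut, ?_, ?_⟩
  · intro i j hij hj heq
    rcases Nat.lt_or_ge j (Nat.find hex) with hlt | hge
    · exact hcut i j hij hlt (by rw [heq]; exact hs j hlt)
    · have hj' : j = Nat.find hex := by omega
      refine Nat.find_min hex (show i < Nat.find hex by omega)
        ⟨p, h0, ?_, fun t ht => hs t (by omega)⟩
      rw [heq, hj', hn]
  · intro i hi hin hP
    refine Nat.find_min hex (show Nat.find hex - i < Nat.find hex by omega)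
      ⟨fun t => p (t + i), by simpa using hP, ?_, fun t ht => ?_⟩
    · show p (Nat.find hex - i + i) = z'
      rw [Nat.sub_add_cancel hin, hn]
    · show R (p (t + i)) (p (t + 1 + i))
      rw [show t + 1 + i = t + i + 1 by omega]
      exact hs _ (by omega)

/-- **the cycle exchange** (helper49): the row `k` leaves, the unowned row `k0` takes its plane, all
loads stay the same -/
theorem cycle85 (h : Ok mem adj Av s) {k k0 : K} (hk : k ∈ s.B) (hk0 : k0 ∉ s.B) (hav : Av k0)
    (hq : s.pl k ∈ adj k0)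
    (hr : ∃ z ∈ mem k0, ReflTransGen (Step mem adj Av s) z (s.own k)) :
    ∃ s' : St X K Q, Ok mem adj Av s' ∧ s'.B.card = s.B.card ∧ k ∉ s'.B ∧ k0 ∈ s'.B ∧
      s'.pl k0 = s.pl k ∧ ∀ y, ld s' y = ld s y := by
  classical
  obtain ⟨n, p, h0, hn, hs, hcut, hdis, hnP⟩ := exists_path' (R := Step mem adj Av s)
    (fun z => z ∈ mem k0) (z' := s.own k) (by obtain ⟨z, hz, hz'⟩ := hr; exact ⟨z, hz, hz'⟩)
  have hc : ∀ i : ℕ, ∃ k1 k2 : K, i < n → k1 ∈ s.B ∧ s.own k1 = p i ∧ (p (i + 1) ∈ mem k1 ∨
      (k2 ∉ s.B ∧ Av k2 ∧ s.pl k1 ∈ adj k2 ∧ p (i + 1) ∈ mem k2)) := by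
    intro i
    rcases Nat.lt_or_ge i n with hi | hi
    · obtain ⟨k1, hk1, ho, hh⟩ := hs i hi
      rcases hh with hh | ⟨k2, e1, e2, e3, e4⟩
      · exact ⟨k1, k1, fun _ => ⟨hk1, ho, Or.inl hh⟩⟩
      · exact ⟨k1, k2, fun _ => ⟨hk1, ho, Or.inr ⟨e1, e2, e3, e4⟩⟩⟩
    · exact ⟨k, k, fun hi' => absurd hi' (by omega)⟩
  choose kk ka hkk using hc
  obtain ⟨s', g1, g2, g3, -, g4, g5⟩ := shift_path' h
    (fun i => match i with | 0 => s.own k | i + 1 => p i)
    (fun i => match i with | 0 => k | i + 1 => kk i)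
    (fun i => match i with | 0 => k0 | i + 1 => ka i)
    (fun i => match i with | 0 => False | i + 1 => p (i + 1) ∈ mem (kk i)) (n + 1)
    (fun i hi => by
      rcases i with _ | i
      · exact ⟨hk, rfl⟩
      · exact ⟨(hkk i (by omega)).1, (hkk i (by omega)).2.1⟩)
    (fun i hi => by
      rcases i with _ | i
      · exact Or.inr ⟨fun e => e, hk0, hav, hq, h0⟩
      · by_cases e : p (i + 1) ∈ mem (kk i)
        · exact Or.inl ⟨e, e⟩
        · rcases (hkk i (by omega)).2.2 with e1 | e1
          · exact absurd e1 e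
          · exact Or.inr ⟨e, e1⟩)
    (fun i j hij hj => by
      rcases i with _ | i
      · rcases j with _ | j
        · exact absurd hij (by omega)
        · show s.own k ≠ p j
          rw [← hn]
          exact (hdis j n (by omega) le_rfl).symm
      · rcases j with _ | j
        · exact absurd hij (by omega)
        · exact hdis i j (by omega) (by omega))
    (fun i j hij hj ti tj he => by
      rcases j with _ | j
      · exact absurd hij (by omega)
      have e2 : ka j ∉ s.B ∧ Av (ka j) ∧ s.pl (kk j) ∈ adj (ka j) ∧ p (j + 1) ∈ mem (ka j) := by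
        rcases (hkk j (by omega)).2.2 with e2 | e2
        · exact absurd e2 tj
        · exact e2
      rcases i with _ | i
      · have he' : k0 = ka j := he
        exact hnP (j + 1) (by omega) (by omega) (by rw [he']; exact e2.2.2.2)
      · have e1 : ka i ∉ s.B ∧ Av (ka i) ∧ s.pl (kk i) ∈ adj (ka i) ∧ p (i + 1) ∈ mem (ka i) := by
          rcases (hkk i (by omega)).2.2 with e1 | e1
          · exact absurd e1 ti
          · exact e1
        have he' : ka i = ka j := he
        exact hcut i j (by omega) (by omega) ⟨kk i, (hkk i (by omega)).1, (hkk i (by omega)).2.1,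
          Or.inr ⟨ka i, e1.1, e1.2.1, e1.2.2.1, by rw [he']; exact e2.2.2.2⟩⟩)
  obtain ⟨f1, f2, f3⟩ := g4 0 (by omega) (fun e => e)
  refine ⟨s', g1, g2, f1, f2, f3, fun y => ?_⟩
  have f4 : ld s' y + (if y = s.own k then 1 else 0) = ld s y + (if y = p n then 1 else 0) := g5 y
  by_cases e : y = s.own k
  · rw [if_pos e, if_pos (e.trans hn.symm)] at f4
    omega
  · rw [if_neg e, if_neg (fun h => e (h.trans hn))] at f4
    omega

end

/-- **Allocation, preorder version** (`le z z'`: `z` reaches `z'`). The last output is helper49's: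
a harmful edge is not used next to an unowned row whose points reach the owner. -/
theorem alloc85r (mem : K → Finset X) (adj : K → Finset Q) (sw : K → Q → W) (harm : W → Prop)
    (hsw : ∀ k q k' q', sw k q = sw k' q' → q = q')
    (Rep0 : Finset X) (h0 : ∃ s, Feas mem adj Rep0 s) :
    ∃ (Rep : Finset X) (E : Finset W) (s : St X K Q) (le : X → X → Prop),
      Rep ⊆ Rep0 ∧ (∀ z, le z z) ∧ (∀ x y z, le x y → le y z → le x z) ∧
      (∀ z, z ∉ Rep → 1 ≤ ld s z) ∧ (∀ x y, le x y → ld s x ≤ ld s y + 1) ∧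
      (∀ x y, le x y → (x ∉ Rep ↔ y ∉ Rep)) ∧
      (∀ k ∈ s.B, (∀ z ∈ mem k, z ∉ Rep) ∧ s.own k ∈ mem k ∧ s.pl k ∈ adj k ∧
        (harm (sw k (s.pl k)) → sw k (s.pl k) ∈ E)) ∧
      (∀ k ∈ s.B, ∀ k' ∈ s.B, s.pl k = s.pl k' → k = k') ∧
      (∀ k ∈ s.B, ∀ z ∈ mem k, le (s.own k) z) ∧
      (∀ k0, k0 ∉ s.B → (∀ z ∈ mem k0, z ∉ Rep) → (mem k0).Nonempty → ∀ q ∈ adj k0,
        (harm (sw k0 q) → sw k0 q ∈ E) →
        ∃ k ∈ s.B, s.pl k = q ∧ ∀ z ∈ mem k0, le (s.own k) z) ∧
      (∀ r ∈ Rep, ∀ k0, r ∈ mem k0 → (∀ z ∈ mem k0, z ∈ Rep → z = r) → ∀ q ∈ adj k0,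
        (harm (sw k0 q) → sw k0 q ∈ E) →
        ∃ k ∈ s.B, s.pl k = q ∧ ∀ w, le w (s.own k) → ld s w = 1) ∧
      (∀ k ∈ s.B, harm (sw k (s.pl k)) → ∀ w, le w (s.own k) → ld s w = 1) ∧
      (∀ k ∈ s.B, harm (sw k (s.pl k)) → ∀ k0, k0 ∉ s.B → (∀ z ∈ mem k0, z ∉ Rep) →
        s.pl k ∈ adj k0 → (harm (sw k0 (s.pl k)) → sw k0 (s.pl k) ∈ E) →
        sw k0 (s.pl k) ≠ sw k (s.pl k) → ∀ z ∈ mem k0, ¬ le z (s.own k)) := by
  classical
  -- the harmful edges which are used by the given state suffice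
  have hstart : ∃ E : Finset W, ∃ s : St X K Q, Feas mem (adjW adj sw harm E) Rep0 s := by
    obtain ⟨s, hs⟩ := h0
    refine ⟨s.B.image fun k => sw k (s.pl k), s, ⟨hs.1.av, hs.1.own, fun k hk => ?_, hs.1.inj⟩,
      hs.2⟩
    rw [mem_adjW]
    exact ⟨hs.1.pl k hk, Or.inr (Finset.mem_image.2 ⟨k, hk, rfl⟩)⟩
  obtain ⟨E0, hE0⟩ := hstart
  obtain ⟨⟨Rep, E⟩, ⟨hRep, hRf⟩, hmin⟩ := exists_min
    (fun p : Finset X × Finset W => p.1 ⊆ Rep0 ∧
      ∃ s : St X K Q, Feas mem (adjW adj sw harm p.2) p.1 s) (fun p => p.1.card + p.2.card)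
    ⟨(Rep0, E0), subset_rfl, hE0⟩
  simp only at hRep hRf hmin
  obtain ⟨s, hb⟩ := exists_best mem (adjW adj sw harm E) Rep hRf
  have hok := hb.feas.1
  have himp : ∀ k q, q ∈ adjW adj sw harm E k ↔ q ∈ adj k ∧ (harm (sw k q) → sw k q ∈ E) := by
    intro k q
    rw [mem_adjW]
    tauto
  -- the two minimality statements
  have hnoR : ∀ r ∈ Rep, ¬ ∃ t : St X K Q, Feas mem (adjW adj sw harm E) (Rep.erase r) t := by
    intro r hr ht
    have h1 := hmin (Rep.erase r, E) ⟨(Finset.erase_subset _ _).trans hRep, ht⟩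
    simp only at h1
    rw [Finset.card_erase_of_mem hr] at h1
    have : 0 < Rep.card := Finset.card_pos.2 ⟨r, hr⟩
    omega
  have hnoE : ∀ w ∈ E, ¬ ∃ t : St X K Q, Feas mem (adjW adj sw harm (E.erase w)) Rep t := by
    intro w hw ht
    have h1 := hmin (Rep, E.erase w) ⟨hRep, ht⟩
    simp only at h1
    rw [Finset.card_erase_of_mem hw] at h1
    have : 0 < E.card := Finset.card_pos.2 ⟨w, hw⟩
    omega
  -- a state which does not use the switch `w`
  have hdrop : ∀ (t : St X K Q) (w : W), Feas mem (adjW adj sw harm E) Rep t →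
      (∀ k ∈ t.B, sw k (t.pl k) ≠ w) → Feas mem (adjW adj sw harm (E.erase w)) Rep t := by
    intro t w ht hw
    refine ⟨⟨ht.1.av, ht.1.own, fun k hk => ?_, ht.1.inj⟩, ht.2⟩
    have f1 := ht.1.pl k hk
    rw [mem_adjW] at f1 ⊢
    refine ⟨f1.1, ?_⟩
    rcases f1.2 with h | h
    · exact Or.inl h
    · exact Or.inr (Finset.mem_erase.2 ⟨hw k hk, h⟩)
  refine ⟨Rep, E, s, ReflTransGen (Step mem (adjW adj sw harm E) (AvR mem Rep) s), hRep,
    fun z => ReflTransGen.refl, fun x y z h1 h2 => h1.trans h2, hb.feas.2,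
    fun x y h => hb.reach h, fun x y h => ⟨fun hx => reach_notRep hok hx h,
      fun hy => reach_notRep' hok hy h⟩,
    fun k hk => ⟨hok.av k hk, hok.own k hk, (himp k _).1 (hok.pl k hk)⟩, hok.inj, ?_, ?_, ?_, ?_, ?_⟩
  · exact fun k hk z hz => ReflTransGen.single ⟨k, hk, rfl, Or.inl hz⟩
  · intro k0 hk0 hav hne q hq0 hqE
    have hq := (himp k0 q).2 ⟨hq0, hqE⟩
    by_cases hfree : ∀ k ∈ s.B, s.pl k ≠ q
    · exfalso
      obtain ⟨b, hbm⟩ := hne
      have h1 : Ok mem (adjW adj sw harm E) (AvR mem Rep) (add s k0 b q) :=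
        hok.add hk0 (fun _ h => h) hav hq hfree hbm
      have h2 := hb.card (add s k0 b q) ⟨h1, fun z hz => by
        rw [ld_add s hk0]
        have := hb.feas.2 z hz
        omega⟩
      have h3 : (add s k0 b q).B.card = s.B.card + 1 := Finset.card_insert_of_notMem hk0
      omega
    · push Not at hfree
      obtain ⟨k, hk, hkq⟩ := hfree
      exact ⟨k, hk, hkq, fun z hz =>
        ReflTransGen.single ⟨k, hk, rfl, Or.inr ⟨k0, hk0, hav, by rw [hkq]; exact hq, hz⟩⟩⟩
  · intro r hr k0 hrk hk0R q hq0 hqE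
    have hq := (himp k0 q).2 ⟨hq0, hqE⟩
    have hk0 : k0 ∉ s.B := fun h => hok.av k0 h r hrk hr
    have hsub : ∀ k, AvR mem Rep k → AvR mem (Rep.erase r) k := fun k h z hz hz' =>
      h z hz (Finset.mem_of_mem_erase hz')
    have hk0av : AvR mem (Rep.erase r) k0 := fun z hz hz' =>
      Finset.ne_of_mem_erase hz' (hk0R z hz (Finset.mem_of_mem_erase hz'))
    by_cases hfree : ∀ k ∈ s.B, s.pl k ≠ q
    · exfalso
      refine hnoR r hr ⟨add s k0 r q, hok.add hk0 hsub hk0av hq hfree hrk, fun z hz => ?_⟩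
      rw [ld_add s hk0]
      by_cases e : z = r
      · rw [if_pos e]; omega
      · have := hb.feas.2 z (fun h => hz (Finset.mem_erase.2 ⟨e, h⟩))
        omega
    · push Not at hfree
      obtain ⟨k, hk, hkq⟩ := hfree
      refine ⟨k, hk, hkq, ?_⟩
      intro w hw
      by_contra hlw
      have hyR : s.own k ∉ Rep := hok.av k hk _ (hok.own k hk)
      have hwR : w ∉ Rep := reach_notRep' hok hyR hw
      have hw2 : 2 ≤ ld s w := by
        have := hb.feas.2 w hwR
        omega
      obtain ⟨s', g1, g2, g3, g4⟩ := hb.feas.shift hw hw2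
      obtain ⟨e1, e2, e3⟩ := g3 k hk rfl
      have hk0' : k0 ∉ s'.B := fun h => g1.1.av k0 h r hrk hr
      refine hnoR r hr ⟨swap s' k k0 r, (g1.1.mono hsub).swap e1 hk0' hk0av
        (by rw [e3, hkq]; exact hq) hrk, fun z hz => ?_⟩
      have f1 := ld_swap s' e1 hk0' r z
      have f2 := g4 z
      by_cases e : z = r
      · subst e
        have f3 : z ≠ s'.own k := fun h => hyR (by rw [← e2, ← h]; exact hr)
        rw [if_neg f3, if_pos rfl] at f1
        omega
      · have hzR : z ∉ Rep := fun h => hz (Finset.mem_erase.2 ⟨e, h⟩)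
        have f3 := hb.feas.2 z hzR
        rw [if_neg e, e2] at f1
        by_cases e4 : z = s.own k
        · rw [if_pos e4] at f1 f2
          by_cases e5 : z = w
          · rw [if_pos e5] at f2
            rw [← e5] at hw2
            omega
          · rw [if_neg e5] at f2
            omega
        · rw [if_neg e4] at f1 f2
          by_cases e5 : z = w
          · rw [if_pos e5] at f2
            rw [← e5] at hw2
            omega
          · rw [if_neg e5] at f2
            omega
  · intro k hk hh w hw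
    by_contra hlw
    have hyR : s.own k ∉ Rep := hok.av k hk _ (hok.own k hk)
    have hwR : w ∉ Rep := reach_notRep' hok hyR hw
    have hw2 : 2 ≤ ld s w := by
      have := hb.feas.2 w hwR
      omega
    obtain ⟨s', g1, g2, g3, g4⟩ := hb.feas.shift hw hw2
    obtain ⟨e1, e2, e3⟩ := g3 k hk rfl
    have hE : sw k (s.pl k) ∈ E := ((himp k _).1 (hok.pl k hk)).2 hh
    refine hnoE _ hE ⟨drop s' k, hdrop _ _ ⟨⟨?_, ?_, ?_, ?_⟩, fun z hz => ?_⟩ ?_⟩
    · exact fun k' hk' => g1.1.av k' (Finset.mem_of_mem_erase hk')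
    · exact fun k' hk' => g1.1.own k' (Finset.mem_of_mem_erase hk')
    · exact fun k' hk' => g1.1.pl k' (Finset.mem_of_mem_erase hk')
    · exact fun k1 h1 k2 h2 e => g1.1.inj k1 (Finset.mem_of_mem_erase h1) k2
        (Finset.mem_of_mem_erase h2) e
    · have f1 := ld_drop s' e1 z
      have f2 := g4 z
      have f3 := hb.feas.2 z hz
      rw [e2] at f1
      by_cases e4 : z = s.own k
      · rw [if_pos e4] at f1 f2
        by_cases e5 : z = w
        · rw [if_pos e5] at f2
          rw [← e5] at hw2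
          omega
        · rw [if_neg e5] at f2
          omega
      · rw [if_neg e4] at f1 f2
        by_cases e5 : z = w
        · rw [if_pos e5] at f2
          rw [← e5] at hw2
          omega
        · rw [if_neg e5] at f2
          omega
    · intro k' hk' e
      have e5 : s'.pl k' = s'.pl k := by rw [e3]; exact hsw _ _ _ _ e
      exact Finset.ne_of_mem_erase hk' (g1.1.inj k' (Finset.mem_of_mem_erase hk') k e1 e5)
  · intro k hk hh k0 hk0 hav hq0 hqE hne z hz hle
    have hE : sw k (s.pl k) ∈ E := ((himp k _).1 (hok.pl k hk)).2 hh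
    have hq := (himp k0 (s.pl k)).2 ⟨hq0, hqE⟩
    obtain ⟨s', g1, g2, g3, g4, g5, g6⟩ := cycle85 hok hk hk0 hav hq ⟨z, hz, hle⟩
    refine hnoE _ hE ⟨s', hdrop _ _ ⟨g1, fun y hy => by rw [g6]; exact hb.feas.2 y hy⟩ ?_⟩
    intro k' hk' e
    have e5 : s'.pl k' = s.pl k := hsw _ _ _ _ e
    have e6 : k' = k0 := g1.inj k' hk' k0 g4 (e5.trans g5.symm)
    subst e6
    rw [g5] at e
    exact hne e

end Pool.Agent.Alloc85
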