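import Mathlib

set_option linter.all false

/-!
# MP_47cd0b (room C): balanced ownership of rows

`mem k` = the points of the row `k`; `own k` = its owner. `ld own z` = number of rows owned by `z`.
At an owner map with least sum of squares every row is owned by a point of its lowest class, and the
load of a point is its class or its class plus one.
-/

namespace Pool.Agent.Semi85

open Relation Finset

variable {X K : Type*} [Fintype X] [DecidableEq X] [Fintype K] [DecidableEq K]

/-- the load of `z` -/
def ld (own : K → X) (z : X) : ℕ := (univ.filter fun k => own k = z).card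

/-- `z` owns a row containing `z'` -/
def Step (mem : K → Finset X) (own : K → X) (z z' : X) : Prop := ∃ k, own k = z ∧ z' ∈ mem k

/-- the owner map is valid -/
def Valid (mem : K → Finset X) (own : K → X) : Prop := ∀ k, own k ∈ mem k

/-- reassigning one row -/
theorem ld_update (own : K → X) (k : K) (b y : X) :
    ld (Function.update own k b) y + (if y = own k then 1 else 0)
      = ld own y + (if y = b then 1 else 0) := by
  classical
  unfold ld
  have h1 : ∀ o : K → X, (univ.filter fun k' => o k' = y).card
      = (if o k = y then 1 else 0) + ((univ.erase k).filter fun k' => o k' = y).card := by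
    intro o
    conv_lhs => rw [← Finset.insert_erase (mem_univ k), Finset.filter_insert]
    split_ifs with h
    · rw [Finset.card_insert_of_notMem (by simp)]
      omega
    · omega
  rw [h1 (Function.update own k b), h1 own]
  have h2 : ((univ.erase k).filter fun k' => Function.update own k b k' = y)
      = (univ.erase k).filter fun k' => own k' = y := by
    apply Finset.filter_congr
    intro k' hk'
    rw [Function.update_of_ne (Finset.ne_of_mem_erase hk')]
  rw [h2, Function.update_self]
  by_cases h3 : y = own k
  · by_cases h4 : y = b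
    · subst h3; subst h4; simp
    · have h5 : ¬ b = y := fun h => h4 h.symm
      subst h3; simp [h4, h5]; omega
  · by_cases h4 : y = b
    · have h5 : ¬ own k = y := fun h => h3 h.symm
      subst h4; simp [h3, h5]; omega
    · have h5 : ¬ own k = y := fun h => h3 h.symm
      have h6 : ¬ b = y := fun h => h4 h.symm
      simp [h3, h4, h5, h6]

/-- shifting along a path with different vertices -/
theorem shift_path (mem : K → Finset X) (own : K → X) (hv : Valid mem own) (p : ℕ → X) (n : ℕ)
    (hp : ∀ i < n, Step mem own (p i) (p (i + 1)))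
    (hinj : ∀ i j, i < j → j < n → p i ≠ p j) :
    ∃ own' : K → X, Valid mem own' ∧
      (∀ k, (∀ i < n, own k ≠ p i) → own' k = own k) ∧
      (∀ k, own' k ≠ own k → ∃ i < n, own k = p i ∧ own' k = p (i + 1)) ∧
      ∀ y, ld own' y + (if y = p 0 then 1 else 0) = ld own y + (if y = p n then 1 else 0) := by
  induction n with
  | zero => exact ⟨own, hv, fun k _ => rfl, fun k h => absurd rfl h, fun y => rfl⟩
  | succ n ih =>
    obtain ⟨o, ho, hk, hk2, hl⟩ := ih (fun i hi => hp i (by omega))
      (fun i j hij hj => hinj i j hij (by omega))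
    obtain ⟨k, hk1, hkm⟩ := hp n (by omega)
    have hok : o k = p n := by
      rw [hk k (fun i hi => by rw [hk1]; exact (hinj i n hi (by omega)).symm), hk1]
    refine ⟨Function.update o k (p (n + 1)), ?_, ?_, ?_, ?_⟩
    · intro k'
      by_cases h : k' = k
      · subst h; rw [Function.update_self]; exact hkm
      · rw [Function.update_of_ne h]; exact ho k'
    · intro k' hk'
      have h : k' ≠ k := by
        rintro rfl
        exact hk' n (by omega) hk1
      rw [Function.update_of_ne h]
      exact hk k' (fun i hi => hk' i (by omega))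
    · intro k' hk'
      by_cases h : k' = k
      · subst h
        exact ⟨n, by omega, hk1, by rw [Function.update_self]⟩
      · rw [Function.update_of_ne h] at hk' ⊢
        obtain ⟨i, hi, h1, h2⟩ := hk2 k' hk'
        exact ⟨i, by omega, h1, h2⟩
    · intro y
      have h1 := ld_update o k (p (n + 1)) y
      have h2 := hl y
      rw [hok] at h1
      omega

/-- a reachable vertex is reached by a path with different vertices -/
theorem exists_path (mem : K → Finset X) (own : K → X) {z z' : X}
    (h : ReflTransGen (Step mem own) z z') :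
    ∃ (n : ℕ) (p : ℕ → X), p 0 = z ∧ p n = z' ∧ (∀ i < n, Step mem own (p i) (p (i + 1))) ∧
      ∀ i j, i < j → j ≤ n → p i ≠ p j := by
  classical
  have hex : ∃ n : ℕ, ∃ p : ℕ → X, p 0 = z ∧ p n = z' ∧
      ∀ i < n, Step mem own (p i) (p (i + 1)) := by
    induction h with
    | refl => exact ⟨0, fun _ => z, rfl, rfl, fun i hi => absurd hi (by omega)⟩
    | @tail a b _ hab ih =>
      obtain ⟨n, p, h0, hn, hs⟩ := ih
      refine ⟨n + 1, fun t => if t ≤ n then p t else b, by simp [h0], by simp, ?_⟩
      intro i hi
      show Step mem own (if i ≤ n then p i else b) (if i + 1 ≤ n then p (i + 1) else b)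
      by_cases h1 : i + 1 ≤ n
      · rw [if_pos (by omega), if_pos h1]
        exact hs i (by omega)
      · have h2 : i = n := by omega
        subst h2
        rw [if_pos le_rfl, if_neg (by omega), hn]
        exact hab
  obtain ⟨p, h0, hn, hs⟩ := Nat.find_spec hex
  refine ⟨Nat.find hex, p, h0, hn, hs, ?_⟩
  intro i j hij hj heq
  have hlt : Nat.find hex - (j - i) < Nat.find hex := by omega
  refine Nat.find_min hex hlt ⟨fun t => if t ≤ i then p t else p (t + (j - i)), ?_, ?_, ?_⟩
  · simp [h0]
  · simp only
    split_ifs with h1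
    · have h2 : Nat.find hex - (j - i) = i := by omega
      have h3 : j = Nat.find hex := by omega
      rw [h2, heq, ← hn, ← h3]
    · rw [Nat.sub_add_cancel (by omega), hn]
  · intro t ht
    simp only
    by_cases h1 : t + 1 ≤ i
    · rw [if_pos (by omega), if_pos h1]
      exact hs t (by omega)
    · by_cases h2 : t ≤ i
      · have h3 : t = i := by omega
        subst h3
        rw [if_pos le_rfl, if_neg h1, heq]
        have h4 := hs j (by omega)
        rwa [show t + 1 + (j - t) = j + 1 by omega]
      · rw [if_neg h2, if_neg h1]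
        have h4 := hs (t + (j - i)) (by omega)
        rwa [show t + 1 + (j - i) = t + (j - i) + 1 by omega]

/-- **shift**: from `z` to any point which it reaches -/
theorem shift85 (mem : K → Finset X) (own : K → X) (hv : Valid mem own) {z z' : X}
    (h : ReflTransGen (Step mem own) z z') :
    ∃ own' : K → X, Valid mem own' ∧
      (∀ k, own' k ≠ own k → ReflTransGen (Step mem own) z (own k) ∧
        ReflTransGen (Step mem own) (own' k) z') ∧
      ∀ y, ld own' y + (if y = z then 1 else 0) = ld own y + (if y = z' then 1 else 0) := by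
  obtain ⟨n, p, h0, hn, hs, hi⟩ := exists_path mem own h
  obtain ⟨o, h1, -, h3, h4⟩ := shift_path mem own hv p n hs (fun i j hij hj => hi i j hij hj.le)
  have hup : ∀ i ≤ n, ReflTransGen (Step mem own) z (p i) := by
    intro i
    induction i with
    | zero => intro _; rw [h0]
    | succ i ih => intro hle; exact (ih (by omega)).tail (hs i (by omega))
  have hdn : ∀ m ≤ n, ReflTransGen (Step mem own) (p (n - m)) z' := by
    intro m
    induction m with
    | zero => intro _; rw [Nat.sub_zero, hn]
    | succ m ih =>
      intro hle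
      have h5 := hs (n - (m + 1)) (by omega)
      rw [show n - (m + 1) + 1 = n - m by omega] at h5
      exact (ih (by omega)).head h5
  refine ⟨o, h1, ?_, ?_⟩
  · intro k hk
    obtain ⟨i, hi', h5, h6⟩ := h3 k hk
    refine ⟨by rw [h5]; exact hup i hi'.le, ?_⟩
    have h7 := hdn (n - (i + 1)) (by omega)
    rwa [show n - (n - (i + 1)) = i + 1 by omega, ← h6] at h7
  · intro y
    have := h4 y
    rwa [h0, hn] at this

/-- the sum of the squares of the loads -/
def sq (own : K → X) : ℕ := ∑ y, ld own y ^ 2

theorem sq_shift {own own' : K → X} {z z' : X} (hne : z ≠ z')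
    (h : ∀ y, ld own' y + (if y = z then 1 else 0) = ld own y + (if y = z' then 1 else 0))
    (hlt : ld own z' + 1 < ld own z) : sq own' < sq own := by
  classical
  unfold sq
  have hz' : z' ∈ univ.erase z := mem_erase.2 ⟨hne.symm, mem_univ _⟩
  rw [← Finset.add_sum_erase _ _ (mem_univ z), ← Finset.add_sum_erase _ _ hz',
    ← Finset.add_sum_erase (f := fun y => ld own y ^ 2) _ (mem_univ z),
    ← Finset.add_sum_erase (f := fun y => ld own y ^ 2) _ hz']
  have h1 : ∑ y ∈ (univ.erase z).erase z', ld own' y ^ 2
      = ∑ y ∈ (univ.erase z).erase z', ld own y ^ 2 := by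
    refine Finset.sum_congr rfl fun y hy => ?_
    have h2 := h y
    rw [if_neg (Finset.ne_of_mem_erase (Finset.mem_of_mem_erase hy)),
      if_neg (Finset.ne_of_mem_erase hy)] at h2
    simp only [add_zero] at h2
    rw [h2]
  rw [h1]
  have h3 := h z
  have h4 := h z'
  rw [if_pos rfl, if_neg hne] at h3
  rw [if_neg hne.symm, if_pos rfl] at h4
  have h5 : ld own' z' = ld own z' + 1 := by omega
  obtain ⟨d, hd⟩ : ∃ d, ld own z = ld own z' + 2 + d := ⟨ld own z - (ld own z' + 2), by omega⟩
  have h6 : ld own' z = ld own z' + 1 + d := by omega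
  rw [h5, h6, hd]
  nlinarith

/-- an owner map with least sum of squares -/
def Best (mem : K → Finset X) (own : K → X) : Prop :=
  Valid mem own ∧ ∀ o, Valid mem o → sq own ≤ sq o

theorem exists_best (mem : K → Finset X) (hne : ∀ k, (mem k).Nonempty) :
    ∃ own, Best mem own := by
  classical
  have h1 : (univ.filter fun o : K → X => Valid mem o).Nonempty :=
    ⟨fun k => (hne k).choose, mem_filter.2 ⟨mem_univ _, fun k => (hne k).choose_spec⟩⟩
  obtain ⟨o, ho, hm⟩ := Finset.exists_min_image _ sq h1
  exact ⟨o, (mem_filter.1 ho).2, fun o' ho' => hm o' (mem_filter.2 ⟨mem_univ _, ho'⟩)⟩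

theorem Best.reach {mem : K → Finset X} {own : K → X} (hb : Best mem own) {z z' : X}
    (h : ReflTransGen (Step mem own) z z') : ld own z ≤ ld own z' + 1 := by
  by_contra hcon
  push Not at hcon
  obtain ⟨o, h1, -, h2⟩ := shift85 mem own hb.1 h
  have hne : z ≠ z' := by rintro rfl; omega
  exact absurd (sq_shift hne h2 hcon) (not_lt.2 (hb.2 o h1))

/-- the class of a point -/
noncomputable def cls (mem : K → Finset X) (own : K → X) (z : X) : ℕ :=
  sInf (ld own '' {y | ReflTransGen (Step mem own) z y})

theorem cls_le {mem : K → Finset X} {own : K → X} {z y : X}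
    (h : ReflTransGen (Step mem own) z y) : cls mem own z ≤ ld own y :=
  Nat.sInf_le ⟨y, h, rfl⟩

theorem exists_cls (mem : K → Finset X) (own : K → X) (z : X) :
    ∃ y, ReflTransGen (Step mem own) z y ∧ ld own y = cls mem own z := by
  have h := Nat.sInf_mem (s := ld own '' {y | ReflTransGen (Step mem own) z y})
    ⟨_, z, ReflTransGen.refl, rfl⟩
  obtain ⟨y, h1, h2⟩ := h
  exact ⟨y, h1, h2⟩

theorem cls_mono {mem : K → Finset X} {own : K → X} {z z' : X}
    (h : ReflTransGen (Step mem own) z z') : cls mem own z ≤ cls mem own z' := by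
  obtain ⟨y, h1, h2⟩ := exists_cls mem own z'
  rw [← h2]
  exact cls_le (h.trans h1)

theorem Best.cls_own {mem : K → Finset X} {own : K → X} {k : K} {z : X}
    (h : z ∈ mem k) : cls mem own (own k) ≤ cls mem own z :=
  cls_mono (ReflTransGen.single ⟨k, rfl, h⟩)

theorem Best.le_ld {mem : K → Finset X} {own : K → X} (z : X) : cls mem own z ≤ ld own z :=
  cls_le ReflTransGen.refl

theorem Best.ld_le {mem : K → Finset X} {own : K → X} (hb : Best mem own) (z : X) :
    ld own z ≤ cls mem own z + 1 := by
  obtain ⟨y, h1, h2⟩ := exists_cls mem own z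
  rw [← h2]
  exact hb.reach h1

/-- all points of a set which is closed backwards: the rows meeting it are owned by it -/
theorem card_rows_le {mem : K → Finset X} {own : K → X} (B : Finset X)
    (hB : ∀ z z', Step mem own z z' → z' ∈ B → z ∈ B) :
    (univ.filter fun k => ∃ z ∈ B, z ∈ mem k).card ≤ ∑ z ∈ B, ld own z := by
  classical
  have h1 : (univ.filter fun k => ∃ z ∈ B, z ∈ mem k) ⊆ univ.filter fun k => own k ∈ B := by
    intro k hk
    obtain ⟨z, hz, hzk⟩ := (mem_filter.1 hk).2
    exact mem_filter.2 ⟨mem_univ _, hB _ _ ⟨k, rfl, hzk⟩ hz⟩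
  refine (Finset.card_le_card h1).trans (le_of_eq ?_)
  rw [Finset.card_eq_sum_card_fiberwise (s := univ.filter fun k => own k ∈ B) (t := B) (f := own)
    (fun k hk => by simpa using hk)]
  refine Finset.sum_congr rfl fun z hz => ?_
  unfold ld
  congr 1
  ext k
  simp only [mem_filter, mem_univ, true_and]
  constructor
  · rintro ⟨_, h⟩; exact h
  · intro h; exact ⟨by rw [h]; exact hz, h⟩

/-- if every set of points meets `m` times as many rows, all classes are at least `m` -/
theorem Best.le_cls {mem : K → Finset X} {own : K → X} (hb : Best mem own) (m : ℕ)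
    (hall : ∀ S : Finset X, m * S.card ≤ (univ.filter fun k => ∃ z ∈ S, z ∈ mem k).card) (z : X) :
    m ≤ cls mem own z := by
  classical
  obtain ⟨y, h1, h2⟩ := exists_cls mem own z
  rw [← h2]
  by_contra hcon
  push Not at hcon
  set B : Finset X := univ.filter fun x => ReflTransGen (Step mem own) x y with hBdef
  have hyB : y ∈ B := mem_filter.2 ⟨mem_univ _, ReflTransGen.refl⟩
  have hB : ∀ z z', Step mem own z z' → z' ∈ B → z ∈ B := fun z z' hs hz' =>
    mem_filter.2 ⟨mem_univ _, (mem_filter.1 hz').2.head hs⟩
  have h3 := (hall B).trans (card_rows_le B hB)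
  have h4 : ∑ z ∈ B, ld own z < ∑ z ∈ B, m := by
    refine Finset.sum_lt_sum (fun x hx => ?_) ⟨y, hyB, hcon⟩
    have := hb.reach (mem_filter.1 hx).2
    omega
  rw [Finset.sum_const, smul_eq_mul, mul_comm] at h4
  omega

/-- **Balanced ownership.** -/
theorem semi85 (mem : K → Finset X) (hne : ∀ k, (mem k).Nonempty) :
    ∃ (own : K → X) (cl : X → ℕ), (∀ k, own k ∈ mem k) ∧
      (∀ k, ∀ z ∈ mem k, cl (own k) ≤ cl z) ∧
      (∀ z, cl z ≤ ld own z ∧ ld own z ≤ cl z + 1) ∧
      ∀ m : ℕ, (∀ S : Finset X,
        m * S.card ≤ (univ.filter fun k => ∃ z ∈ S, z ∈ mem k).card) → ∀ z, m ≤ cl z := by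
  obtain ⟨own, hb⟩ := exists_best mem hne
  exact ⟨own, cls mem own, hb.1, fun k z hz => Best.cls_own hz,
    fun z => ⟨Best.le_ld z, hb.ld_le z⟩, fun m h z => hb.le_cls m h z⟩

end Pool.Agent.Semi85
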