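import Pool.Agent.Helper85.Semi85

set_option linter.all false

/-!
# MP_47cd0b (room C): the share rule

`X` points, `C` colours, `K` rows, `G` lines. `row c v` = the row of colour `c` through `v`,
`own k` = the owner of the row `k`, `T g` = the points of `g` which give shares away,
`Λ k` = the lines which the owner of `k` may take (in the plane of `k`, through the owner, not `k`).
-/

namespace Pool.Agent.Semi85

open Finset

variable {X C K G : Type*} [Fintype X] [DecidableEq X] [Fintype C] [DecidableEq C] [Fintype K]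
  [DecidableEq K] [DecidableEq G]

/-- the share of the colour `c` on the line `g`: every point `v` of `T g` gives `1 / |T g|`, divided
equally among the colours which it owns -/
def share (row : C → X → K) (own : K → X) (T : G → Finset X) (c : C) (g : G) : ℚ :=
  ∑ v ∈ (T g).filter (fun v => own (row c v) = v), 1 / ((T g).card * ld own v : ℚ)

theorem share_nonneg (row : C → X → K) (own : K → X) (T : G → Finset X) (c : C) (g : G) :
    0 ≤ share row own T c g := Finset.sum_nonneg fun v _ => by positivity

/-- the number of colours which `v` owns is at most its load -/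
theorem card_own_le (row : C → X → K) (own : K → X)
    (hrow : ∀ c c' v v', row c v = row c' v' → c = c') (v : X) :
    (univ.filter fun c => own (row c v) = v).card ≤ ld own v := by
  classical
  unfold ld
  refine Finset.card_le_card_of_injOn (fun c => row c v) (fun c hc => ?_) (fun c hc c' hc' h => ?_)
  · simpa using hc
  · exact hrow c c' v v h

/-- the shares of a line sum to at most one -/
theorem share_sum_le (row : C → X → K) (own : K → X) (T : G → Finset X)
    (hrow : ∀ c c' v v', row c v = row c' v' → c = c') (g : G) :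
    ∑ c, share row own T c g ≤ 1 := by
  classical
  unfold share
  have h1 : ∀ c, ∑ v ∈ (T g).filter (fun v => own (row c v) = v),
      (1 : ℚ) / ((T g).card * ld own v) = ∑ v ∈ T g,
        if own (row c v) = v then (1 : ℚ) / ((T g).card * ld own v) else 0 := fun c =>
    Finset.sum_filter _ _
  rw [Finset.sum_congr rfl fun c _ => h1 c, Finset.sum_comm]
  have h2 : ∀ v ∈ T g, ∑ c, (if own (row c v) = v then (1 : ℚ) / ((T g).card * ld own v) else 0)
      ≤ 1 / (T g).card := by
    intro v hv
    rw [← Finset.sum_filter, Finset.sum_const, nsmul_eq_mul]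
    have h3 := card_own_le row own hrow v
    have h4 : (0 : ℚ) < (T g).card := by
      have : 0 < (T g).card := Finset.card_pos.2 ⟨v, hv⟩
      exact_mod_cast this
    rcases Nat.eq_zero_or_pos (ld own v) with h5 | h5
    · rw [h5] at h3 ⊢
      have : (univ.filter fun c => own (row c v) = v).card = 0 := by omega
      rw [this]
      simp
    · have h6 : (0 : ℚ) < ld own v := by exact_mod_cast h5
      have h7 : ((univ.filter fun c => own (row c v) = v).card : ℚ) ≤ ld own v := by
        exact_mod_cast h3
      rw [mul_one_div, div_le_div_iff₀ (by positivity) h4]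
      nlinarith
  refine (Finset.sum_le_sum h2).trans ?_
  rw [Finset.sum_const, nsmul_eq_mul]
  rcases Nat.eq_zero_or_pos (T g).card with h | h
  · rw [h]; simp
  · have h4 : (0 : ℚ) < (T g).card := by exact_mod_cast h
    rw [mul_one_div, div_self h4.ne']

/-- the value of the row `k` for its owner -/
def val (row : C → X → K) (own : K → X) (T : G → Finset X) (col : K → C) (Λ : K → Finset G)
    (k : K) : ℚ := ∑ g ∈ Λ k, share row own T (col k) g

/-- **Assembly**: if the usable rows owned by every user have total value at least one, every user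
`x` gets a usable row `kk x` owned by it and a line `gg x` of this row, all lines different.
`Us` = the usable rows, `Z` = the users. -/
theorem assembly85 (row : C → X → K) (own : K → X) (T : G → Finset X) (col : K → C)
    (Λ : K → Finset G) (Us : K → Prop) [DecidablePred Us] (Z : X → Prop)
    (hrow : ∀ c c' v v', row c v = row c' v' → c = c')
    (hcon : ∀ k k' g, Us k → Us k' → g ∈ Λ k → g ∈ Λ k' → col k = col k' → k = k')
    (hval : ∀ x, Z x → 1 ≤ ∑ k ∈ univ.filter (fun k => Us k ∧ own k = x),
      val row own T col Λ k) :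
    ∃ (kk : {x // Z x} → K) (gg : {x // Z x} → G),
      (∀ x, Us (kk x) ∧ own (kk x) = x.1 ∧ gg x ∈ Λ (kk x)) ∧ Function.Injective gg := by
  classical
  let W : {x // Z x} → Finset G := fun x =>
    (univ.filter (fun k => Us k ∧ own k = x.1)).biUnion Λ
  let τ : {x // Z x} → G → ℚ := fun x g =>
    ∑ k ∈ univ.filter (fun k => (Us k ∧ own k = x.1) ∧ g ∈ Λ k), share row own T (col k) g
  have hdem : ∀ x, 1 ≤ ∑ g ∈ W x, τ x g := by
    intro x
    refine (hval x.1 x.2).trans (le_of_eq ?_)
    have h1 : ∀ k ∈ univ.filter (fun k => Us k ∧ own k = x.1), val row own T col Λ k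
        = ∑ g ∈ W x, if g ∈ Λ k then share row own T (col k) g else 0 := by
      intro k hk
      unfold val
      rw [← Finset.sum_filter]
      refine Finset.sum_congr ?_ fun _ _ => rfl
      ext g
      simp only [mem_filter]
      exact ⟨fun h => ⟨mem_biUnion.2 ⟨k, hk, h⟩, h⟩, fun h => h.2⟩
    rw [Finset.sum_congr rfl h1, Finset.sum_comm]
    refine Finset.sum_congr rfl fun g _ => ?_
    rw [← Finset.sum_filter, Finset.filter_filter]
  have hload : ∀ g, ∑ x ∈ univ.filter (fun x => g ∈ W x), τ x g ≤ 1 := by
    intro g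
    refine le_trans ?_ (share_sum_le row own T hrow g)
    have h1 : ∑ x ∈ univ.filter (fun x => g ∈ W x), τ x g
        ≤ ∑ k ∈ univ.filter (fun k => Us k ∧ g ∈ Λ k), share row own T (col k) g := by
      show ∑ x ∈ univ.filter (fun x => g ∈ W x),
        ∑ k ∈ univ.filter (fun k => (Us k ∧ own k = x.1) ∧ g ∈ Λ k), share row own T (col k) g ≤ _
      have hdis : ((univ.filter (fun x => g ∈ W x) : Finset {x // Z x}) :
          Set {x // Z x}).PairwiseDisjoint
          (fun x => univ.filter (fun k => (Us k ∧ own k = x.1) ∧ g ∈ Λ k)) := by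
        intro x _ y _ hxy
        refine Finset.disjoint_left.2 fun k hk hk' => hxy ?_
        have e1 := (mem_filter.1 hk).2.1.2
        have e2 := (mem_filter.1 hk').2.1.2
        exact Subtype.ext (e1.symm.trans e2)
      rw [← Finset.sum_biUnion hdis]
      refine Finset.sum_le_sum_of_subset_of_nonneg ?_ fun k _ _ => share_nonneg _ _ _ _ _
      intro k hk
      obtain ⟨x, _, hk⟩ := mem_biUnion.1 hk
      have := (mem_filter.1 hk).2
      exact mem_filter.2 ⟨mem_univ _, this.1.1, this.2⟩
    refine h1.trans ?_
    have h2 : ∑ k ∈ univ.filter (fun k => Us k ∧ g ∈ Λ k), share row own T (col k) g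
        = ∑ c ∈ (univ.filter (fun k => Us k ∧ g ∈ Λ k)).image col, share row own T c g := by
      rw [Finset.sum_image]
      intro k hk k' hk' h
      have e1 := (mem_filter.1 (Finset.mem_coe.1 hk)).2
      have e2 := (mem_filter.1 (Finset.mem_coe.1 hk')).2
      exact hcon k k' g e1.1 e2.1 e1.2 e2.2 h
    rw [h2]
    exact Finset.sum_le_sum_of_subset_of_nonneg (Finset.subset_univ _)
      fun c _ _ => share_nonneg _ _ _ _ _
  -- Hall
  have hall : ∀ s : Finset {x // Z x}, s.card ≤ (s.biUnion W).card := by
    intro s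
    have h1 : (s.card : ℚ) ≤ ∑ x ∈ s, ∑ g ∈ W x, τ x g := by
      calc (s.card : ℚ) = ∑ x ∈ s, (1 : ℚ) := by simp
        _ ≤ _ := Finset.sum_le_sum fun x _ => hdem x
    have h2 : ∑ x ∈ s, ∑ g ∈ W x, τ x g =
        ∑ g ∈ s.biUnion W, ∑ x ∈ s.filter (fun x => g ∈ W x), τ x g := by
      have h3 : ∀ x ∈ s, ∑ g ∈ W x, τ x g = ∑ g ∈ s.biUnion W, if g ∈ W x then τ x g else 0 := by
        intro x hx
        rw [← Finset.sum_filter]
        refine Finset.sum_congr ?_ fun _ _ => rfl
        ext g
        rw [Finset.mem_filter]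
        exact ⟨fun h => ⟨mem_biUnion.2 ⟨x, hx, h⟩, h⟩, fun h => h.2⟩
      rw [Finset.sum_congr rfl h3, Finset.sum_comm]
      refine Finset.sum_congr rfl fun g _ => ?_
      rw [Finset.sum_filter]
    have h4 : ∑ g ∈ s.biUnion W, ∑ x ∈ s.filter (fun x => g ∈ W x), τ x g ≤
        ((s.biUnion W).card : ℚ) := by
      calc _ ≤ ∑ g ∈ s.biUnion W, (1 : ℚ) := by
            refine Finset.sum_le_sum fun g _ => le_trans ?_ (hload g)
            refine Finset.sum_le_sum_of_subset_of_nonneg ?_ fun x _ _ =>
              Finset.sum_nonneg fun k _ => share_nonneg _ _ _ _ _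
            intro x hx
            rw [Finset.mem_filter] at hx ⊢
            exact ⟨Finset.mem_univ _, hx.2⟩
        _ = _ := by simp
    have h5 : (s.card : ℚ) ≤ ((s.biUnion W).card : ℚ) := by linarith
    exact_mod_cast h5
  obtain ⟨f, hf, hfW⟩ := (Finset.all_card_le_biUnion_card_iff_exists_injective W).mp hall
  have hex : ∀ x : {x // Z x}, ∃ k, (Us k ∧ own k = x.1) ∧ f x ∈ Λ k := by
    intro x
    obtain ⟨k, hk, hkf⟩ := mem_biUnion.1 (hfW x)
    exact ⟨k, (mem_filter.1 hk).2, hkf⟩
  choose k1 hk1 using hex
  exact ⟨k1, f, fun x => ⟨(hk1 x).1.1, (hk1 x).1.2, (hk1 x).2⟩, hf⟩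

/-! ### lower bounds for the value of a row -/

/-- the value is at least the sum over any set of pairs (line, owner on it) -/
theorem le_val (row : C → X → K) (own : K → X) (T : G → Finset X) (col : K → C) (Λ : K → Finset G)
    (k : K) (P : Finset (G × X)) (hP : ∀ p ∈ P, p.1 ∈ Λ k ∧ p.2 ∈ T p.1 ∧
      own (row (col k) p.2) = p.2) :
    ∑ p ∈ P, (1 : ℚ) / ((T p.1).card * ld own p.2) ≤ val row own T col Λ k := by
  classical
  unfold val share
  have h1 : ∀ g ∈ Λ k, ∑ v ∈ (T g).filter (fun v => own (row (col k) v) = v),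
      (1 : ℚ) / ((T g).card * ld own v)
      = ∑ p ∈ ((T g).filter (fun v => own (row (col k) v) = v)).image (fun v => (g, v)),
        (1 : ℚ) / ((T p.1).card * ld own p.2) := by
    intro g _
    rw [Finset.sum_image]
    intro a _ b _ h
    exact (Prod.ext_iff.1 h).2
  rw [Finset.sum_congr rfl h1, ← Finset.sum_biUnion]
  · refine Finset.sum_le_sum_of_subset_of_nonneg ?_ fun p _ _ => by positivity
    intro p hp
    obtain ⟨h2, h3, h4⟩ := hP p hp
    exact mem_biUnion.2 ⟨p.1, h2, mem_image.2 ⟨p.2, mem_filter.2 ⟨h3, h4⟩, rfl⟩⟩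
  · intro g _ g' _ hne
    refine Finset.disjoint_left.2 fun p hp hp' => hne ?_
    obtain ⟨v, _, rfl⟩ := mem_image.1 hp
    obtain ⟨v', _, h⟩ := mem_image.1 hp'
    exact (Prod.ext_iff.1 h).1.symm

/-- **(G)** guests: `F` = the rows of the plane which meet the lowest class `a`, `gl f` = the line
through the guest and the owner of the row `f`; no line has more than `|F|` points of the class. -/
theorem guest85 (row : C → X → K) (own : K → X) (T : G → Finset X) (col : K → C) (Λ : K → Finset G)
    (k : K) (F : Finset K) (hF : F.Nonempty) (a : ℕ) (gl : K → G)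
    (h1 : ∀ f ∈ F, gl f ∈ Λ k ∧ own f ∈ T (gl f) ∧ row (col k) (own f) = f ∧ ld own (own f) ≤ a + 1)
    (h2 : ∀ f ∈ F, (T (gl f)).card ≤ F.card) :
    (1 : ℚ) / (a + 1) ≤ val row own T col Λ k := by
  classical
  refine le_trans ?_ (le_val row own T col Λ k (F.image fun f => (gl f, own f)) ?_)
  · rw [Finset.sum_image]
    · have h3 : ∀ f ∈ F, (1 : ℚ) / (F.card * (a + 1)) ≤ 1 / ((T (gl f)).card * ld own (own f)) := by
        intro f hf
        obtain ⟨_, h5, h6, h7⟩ := h1 f hf
        have h8 : 0 < (T (gl f)).card := Finset.card_pos.2 ⟨_, h5⟩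
        have h9 : 0 < ld own (own f) := Finset.card_pos.2 ⟨f, by simp⟩
        have h10 : ((T (gl f)).card * ld own (own f) : ℚ) ≤ F.card * (a + 1) := by
          have := Nat.mul_le_mul (h2 f hf) h7
          exact_mod_cast this
        have h11 : (0 : ℚ) < (T (gl f)).card * ld own (own f) := by
          have := Nat.mul_pos h8 h9
          exact_mod_cast this
        exact one_div_le_one_div_of_le h11 h10
      refine le_trans (le_of_eq ?_) (Finset.sum_le_sum h3)
      rw [Finset.sum_const, nsmul_eq_mul]
      have h12 : (0 : ℚ) < F.card := by exact_mod_cast Finset.card_pos.2 hF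
      field_simp
    · intro f hf f' hf' h
      have h3 := (h1 f (Finset.mem_coe.1 hf)).2.2.1
      have h4 := (h1 f' (Finset.mem_coe.1 hf')).2.2.1
      rw [← h3, ← h4]
      exact congrArg _ (Prod.ext_iff.1 h).2
  · intro p hp
    obtain ⟨f, hf, rfl⟩ := mem_image.1 hp
    obtain ⟨h3, h4, h5, _⟩ := h1 f hf
    exact ⟨h3, h4, by rw [h5]⟩

/-- **core** users: the owner `x` of `k` lies in the lowest class `a` of the plane, `w = |Λ k|` lines,
`F` = the other rows meeting the class: the value is at least `(w / L_x + |F| / (a + 1)) / (|F| + 1)`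
if no line has more than `|F| + 1` points of the class. -/
theorem core85 (row : C → X → K) (own : K → X) (T : G → Finset X) (col : K → C) (Λ : K → Finset G)
    (k : K) (F : Finset K) (a n : ℕ) (gl : K → G) (hk : row (col k) (own k) = k)
    (h0 : ∀ g ∈ Λ k, own k ∈ T g ∧ (T g).card ≤ n)
    (h1 : ∀ f ∈ F, gl f ∈ Λ k ∧ own f ∈ T (gl f) ∧ row (col k) (own f) = f ∧
      ld own (own f) ≤ a + 1 ∧ f ≠ k) :
    (((Λ k).card : ℚ) / ld own (own k) + F.card / (a + 1)) / n ≤ val row own T col Λ k := by
  classical
  rcases (Λ k).eq_empty_or_nonempty with hΛ | ⟨g0, hg0⟩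
  · have hF : F = ∅ := by
      rw [Finset.eq_empty_iff_forall_notMem]
      intro f hf
      have := (h1 f hf).1
      rw [hΛ] at this
      exact absurd this (Finset.notMem_empty _)
    rw [hF, hΛ]
    have h3 : (0 : ℚ) ≤ val row own T col Λ k :=
      Finset.sum_nonneg fun g _ => share_nonneg _ _ _ _ _
    simpa using h3
  have hn : 0 < n := lt_of_lt_of_le (Finset.card_pos.2 ⟨_, (h0 g0 hg0).1⟩) (h0 g0 hg0).2
  have hn' : (0 : ℚ) < n := by exact_mod_cast hn
  have hLk : 0 < ld own (own k) := Finset.card_pos.2 ⟨k, by simp⟩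
  have hLk' : (0 : ℚ) < ld own (own k) := by exact_mod_cast hLk
  refine le_trans ?_ (le_val row own T col Λ k
    ((Λ k).image (fun g => (g, own k)) ∪ F.image fun f => (gl f, own f)) ?_)
  · rw [Finset.sum_union]
    · rw [Finset.sum_image (by intro g _ g' _ h; exact (Prod.ext_iff.1 h).1), Finset.sum_image]
      · have h3 : ∀ g ∈ Λ k, (1 : ℚ) / (n * ld own (own k))
            ≤ 1 / ((T g).card * ld own (own k)) := by
          intro g hg
          have h8 : 0 < (T g).card := Finset.card_pos.2 ⟨_, (h0 g hg).1⟩
          have h8' : (0 : ℚ) < (T g).card := by exact_mod_cast h8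
          refine one_div_le_one_div_of_le (by positivity) ?_
          have : ((T g).card : ℚ) ≤ n := by exact_mod_cast (h0 g hg).2
          exact mul_le_mul_of_nonneg_right this hLk'.le
        have h4 : ∀ f ∈ F, (1 : ℚ) / (n * (a + 1))
            ≤ 1 / ((T (gl f)).card * ld own (own f)) := by
          intro f hf
          obtain ⟨h4, h5, h6, h7, _⟩ := h1 f hf
          have h8 : 0 < (T (gl f)).card := Finset.card_pos.2 ⟨_, h5⟩
          have h9 : 0 < ld own (own f) := Finset.card_pos.2 ⟨f, by simp⟩
          have h10 : ((T (gl f)).card * ld own (own f) : ℚ) ≤ n * (a + 1) := by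
            have := Nat.mul_le_mul (h0 _ h4).2 h7
            exact_mod_cast this
          have h11 : (0 : ℚ) < (T (gl f)).card * ld own (own f) := by
            have := Nat.mul_pos h8 h9
            exact_mod_cast this
          exact one_div_le_one_div_of_le h11 h10
        refine le_trans (le_of_eq ?_) (add_le_add (Finset.sum_le_sum h3) (Finset.sum_le_sum h4))
        rw [Finset.sum_const, Finset.sum_const, nsmul_eq_mul, nsmul_eq_mul]
        field_simp
      · intro f hf f' hf' h
        have h3 := (h1 f (Finset.mem_coe.1 hf)).2.2.1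
        have h4 := (h1 f' (Finset.mem_coe.1 hf')).2.2.1
        rw [← h3, ← h4]
        exact congrArg _ (Prod.ext_iff.1 h).2
    · refine Finset.disjoint_left.2 fun p hp hp' => ?_
      obtain ⟨g, hg, rfl⟩ := mem_image.1 hp
      obtain ⟨f, hf, h⟩ := mem_image.1 hp'
      have h3 : own f = own k := (Prod.ext_iff.1 h).2
      obtain ⟨_, _, h4, _, h5⟩ := h1 f hf
      apply h5
      rw [← h4, h3, hk]
  · intro p hp
    rcases mem_union.1 hp with hp | hp
    · obtain ⟨g, hg, rfl⟩ := mem_image.1 hp
      exact ⟨hg, (h0 g hg).1, by rw [hk]⟩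
    · obtain ⟨f, hf, rfl⟩ := mem_image.1 hp
      obtain ⟨h3, h4, h5, _⟩ := h1 f hf
      exact ⟨h3, h4, by rw [h5]⟩

end Pool.Agent.Semi85
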